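import Pool.Agent.Lib.F1c4.Path

/-!
# Module F1c4.Rep: words with a high power are in BR (MP_f1c4ef_lc)

PROOF of `rep_mem`. As `b ∈ v`, write `v = α ++ [b] ++ ρ` with `α` over `Γ` (first letter `b`) and
`v = μ ++ [b] ++ γ` with `γ` over `Γ` (last letter `b`). The word `γ ++ α` is over `Γ`; by `H.fin` there is `K0`
with `γ ++ α ∉ R i` for all `i ≥ K0`. Let `k ≥ K0 + 2`. Then
`z1 ++ v ^ k ++ z2 = (z1 ++ v ^ (k - 2) ++ μ ++ [b]) ++ (γ ++ α) ++ [b] ++ (ρ ++ z2)`, and the first part ends with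
`b` and has at least `k - 1 ≥ K0` letters `b` (every `v` has at least one). Here `v ^ k` is
`(List.replicate k v).flatten`.
-/

set_option autoImplicit false

namespace Pool.Agent.Lib.F1c4

namespace RepAux

theorem ov_append {Γ : Finset ℕ} {u v : List ℕ} (hu : Ov Γ u) (hv : Ov Γ v) : Ov Γ (u ++ v) := by
  intro a ha
  rcases List.mem_append.1 ha with h | h
  · exact hu a h
  · exact hv a h

theorem ov_singleton (Γ : Finset ℕ) (b : ℕ) : Ov (insert b Γ) [b] := by
  intro a ha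
  rw [List.mem_singleton] at ha
  rw [ha]
  exact Finset.mem_insert_self b Γ

theorem ov_pow {Γ : Finset ℕ} {v : List ℕ} (hv : Ov Γ v) (m : ℕ) :
    Ov Γ (List.replicate m v).flatten := by
  intro a ha
  obtain ⟨l, hl, hal⟩ := List.mem_flatten.1 ha
  rw [(List.mem_replicate.1 hl).2] at hal
  exact hv a hal

theorem count_pow {v : List ℕ} {b : ℕ} (hb : b ∈ v) (m : ℕ) :
    m ≤ (List.replicate m v).flatten.count b := by
  induction m with
  | zero => exact Nat.zero_le _
  | succ m ih =>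
    rw [List.replicate_succ, List.flatten_cons, List.count_append]
    have h1 : 0 < v.count b := List.count_pos_iff.2 hb
    omega

theorem split_first {Γ : Finset ℕ} {v : List ℕ} {b : ℕ} (hv : Ov (insert b Γ) v) (hb : b ∈ v) :
    ∃ α ρ : List ℕ, v = α ++ [b] ++ ρ ∧ Ov Γ α := by
  obtain ⟨α, ρ, h1, h2⟩ := List.eq_append_cons_of_mem hb
  refine ⟨α, ρ, by rw [h1]; simp, ?_⟩
  intro a ha
  have h3 := hv a (by rw [h1]; exact List.mem_append_left _ ha)
  rcases Finset.mem_insert.1 h3 with h4 | h4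
  · exact absurd (h4 ▸ ha) h2
  · exact h4

theorem split_last {Γ : Finset ℕ} {v : List ℕ} {b : ℕ} (hv : Ov (insert b Γ) v) (hb : b ∈ v) :
    ∃ μ γ : List ℕ, v = μ ++ [b] ++ γ ∧ Ov Γ γ := by
  have h1 : Ov (insert b Γ) v.reverse := fun a ha => hv a (List.mem_reverse.1 ha)
  obtain ⟨α, ρ, h2, h3⟩ := split_first h1 (List.mem_reverse.2 hb)
  refine ⟨ρ.reverse, α.reverse, ?_, fun a ha => h3 a (List.mem_reverse.1 ha)⟩
  have h4 := congrArg List.reverse h2
  rw [List.reverse_reverse] at h4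
  rw [h4]
  simp

end RepAux

theorem rep_mem {Γ : Finset ℕ} {b : ℕ} {R : ℕ → Language ℕ} (H : Hyp Γ b R) (v : List ℕ)
    (hv : Ov (insert b Γ) v) (hb : b ∈ v) :
    ∃ K0 : ℕ, ∀ k, K0 ≤ k → ∀ z1 z2 : List ℕ, Ov (insert b Γ) z1 → Ov (insert b Γ) z2 →
      z1 ++ (List.replicate k v).flatten ++ z2 ∈ BR Γ b R := by
  obtain ⟨α, ρ, h1, hα⟩ := RepAux.split_first hv hb
  obtain ⟨μ, γ, h2, hγ⟩ := RepAux.split_last hv hb
  obtain ⟨K, hK⟩ := (H.fin (γ ++ α)).bddAbove
  refine ⟨K + 3, fun k hk z1 z2 hz1 hz2 => ?_⟩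
  obtain ⟨m, rfl⟩ : ∃ m, k = m + 2 := ⟨k - 2, by omega⟩
  have hμ : Ov (insert b Γ) μ := fun a ha => hv a (by rw [h2]; simp [ha])
  have hρ : Ov (insert b Γ) ρ := fun a ha => hv a (by rw [h1]; simp [ha])
  refine ⟨z1 ++ (List.replicate m v).flatten ++ μ ++ [b], γ ++ α, ρ ++ z2, Or.inr ⟨_, rfl⟩, ?_,
    RepAux.ov_append hγ hα, RepAux.ov_append hρ hz2, ?_, ?_⟩
  · exact RepAux.ov_append (RepAux.ov_append (RepAux.ov_append hz1 (RepAux.ov_pow hv m)) hμ)
      (RepAux.ov_singleton Γ b)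
  · intro h3
    have h4 := hK h3
    have h5 := RepAux.count_pow hb m
    rw [List.count_append, List.count_append, List.count_append] at h4
    omega
  · have h3 : (List.replicate (m + 2) v).flatten = (List.replicate m v).flatten ++ (v ++ v) := by
      rw [List.replicate_add, List.flatten_append]
      congr 1
      simp [List.replicate_succ]
    rw [h3]
    conv_lhs => rw [show v ++ v = (μ ++ [b] ++ γ) ++ (α ++ [b] ++ ρ) from by rw [← h1, ← h2]]
    simp only [List.append_assoc]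

end Pool.Agent.Lib.F1c4
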