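import Pool.Agent.Lib.F1c4.Path

/-!
# Module F1c4.CountW: paths whose loops have weight zero (MP_f1c4ef_lc)

PROOF of `count_le`. Prove by induction on `es`, for all `p` and all finite sets `S` of states: if
`IsPath src tgt p es q`, all `src e` (`e ∈ es`) lie in `S`, `w e ≤ m` for all `e`, and every loop
`y` inside `es` has weight 0, then the weight of `es` is at most `m * S.card`. For `es = e :: es'`:
if `w e = 0` use the induction hypothesis for `es'` and `S`. If `0 < w e`: no `e' ∈ es'` has
`src e' = src e` (otherwise `es' = x ++ e' :: z`, and `e :: x` is a loop at `src e` of positive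
weight: `IsPath src tgt (tgt e) x (src e')` from `isPath_append`), so the induction hypothesis for
`es'` and `S.erase (src e)` gives at most `m * (S.card - 1)`. Finally take for `S` the set of all
states (`Finset.univ` for `Fintype.ofFinite σ`, `Nat.card_eq_fintype_card`).
-/

set_option autoImplicit false

namespace Pool.Agent.Lib.F1c4

theorem count_le_aux {σ E : Type} [DecidableEq σ] (src tgt : E → σ) (w : E → ℕ) (m : ℕ)
    (hm : ∀ e, w e ≤ m) (q : σ) (es : List E) : ∀ (p : σ) (S : Finset σ),
    (∀ e ∈ es, src e ∈ S) → IsPath src tgt p es q →
    (∀ x y z : List E, ∀ s : σ, es = x ++ y ++ z → IsPath src tgt s y s → (y.map w).sum = 0) →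
    (es.map w).sum ≤ m * S.card := by
  induction es with
  | nil =>
    intro p S _ _ _
    simp
  | cons e es ih =>
    intro p S hS h hz
    have hz' : ∀ x y z : List E, ∀ s : σ, es = x ++ y ++ z → IsPath src tgt s y s →
        (y.map w).sum = 0 := by
      intro x y z s hes hy
      exact hz (e :: x) y z s (by rw [hes]; simp) hy
    rw [List.map_cons, List.sum_cons]
    rcases Nat.eq_zero_or_pos (w e) with h0 | hpos
    · have := ih (tgt e) S (fun e' he' => hS e' (List.mem_cons_of_mem _ he')) h.2 hz'
      omega
    · have hne : ∀ e' ∈ es, src e' ∈ S.erase (src e) := by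
        intro e' he'
        refine Finset.mem_erase.2 ⟨?_, hS e' (List.mem_cons_of_mem _ he')⟩
        intro heq
        obtain ⟨x, z, hxz⟩ := List.append_of_mem he'
        have hp : IsPath src tgt (tgt e) (x ++ (e' :: z)) q := by
          have h2 := h.2
          rw [hxz] at h2
          exact h2
        obtain ⟨s, h3, h4⟩ := isPath_append.1 hp
        have hs : src e' = s := h4.1
        have hloop : IsPath src tgt (src e) (e :: x) (src e) := by
          refine ⟨rfl, ?_⟩
          rw [← heq, hs]
          exact h3
        have h5 := hz [] (e :: x) (e' :: z) (src e) (by rw [hxz]; simp) hloop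
        rw [List.map_cons, List.sum_cons] at h5
        omega
      have h6 := ih (tgt e) (S.erase (src e)) hne h.2 hz'
      have hmem : src e ∈ S := hS e List.mem_cons_self
      have hc : (S.erase (src e)).card + 1 = S.card := Finset.card_erase_add_one hmem
      have := hm e
      rw [← hc, Nat.mul_add, Nat.mul_one]
      omega

/-- if all loops inside a path have weight zero, the weight is bounded -/
theorem count_le {σ E : Type} [Finite σ] (src tgt : E → σ) (w : E → ℕ) (m : ℕ)
    (hm : ∀ e, w e ≤ m) (p q : σ) (es : List E) (h : IsPath src tgt p es q)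
    (hz : ∀ x y z : List E, ∀ s : σ, es = x ++ y ++ z → IsPath src tgt s y s → (y.map w).sum = 0) :
    (es.map w).sum ≤ m * Nat.card σ := by
  classical
  have : Fintype σ := Fintype.ofFinite σ
  rw [Nat.card_eq_fintype_card, ← Finset.card_univ]
  exact count_le_aux src tgt w m hm q es p Finset.univ (fun e _ => Finset.mem_univ _) h hz

end Pool.Agent.Lib.F1c4
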