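import Mathlib

/-!
# Minimal rational cones: definitions (MP_f1c4ef_lc)
-/

set_option autoImplicit false

namespace Pool.Agent.Lib.F1c4

/-- rational languages: regular languages over a finite alphabet -/
def Rat (L : Language ℕ) : Prop :=
  L.IsRegular ∧ ∃ S : Finset ℕ, ∀ w ∈ L, ∀ a ∈ w, a ∈ S

/-- rational cones: families of languages over finite alphabets which contain a nonempty language and
are closed under morphisms, inverse morphisms (with a finite alphabet `S`) and intersection with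
rational languages -/
structure IsCone (F : Set (Language ℕ)) : Prop where
  alph : ∀ L ∈ F, ∃ S : Finset ℕ, ∀ w ∈ L, ∀ a ∈ w, a ∈ S
  nonempty : ∃ L ∈ F, ∃ w, w ∈ L
  hom : ∀ L ∈ F, ∀ h : ℕ → List ℕ, ({w : List ℕ | ∃ v ∈ L, w = v.flatMap h} : Language ℕ) ∈ F
  inv : ∀ L ∈ F, ∀ (h : ℕ → List ℕ) (S : Finset ℕ),
    ({w : List ℕ | (∀ a ∈ w, a ∈ S) ∧ w.flatMap h ∈ L} : Language ℕ) ∈ F
  inter : ∀ L ∈ F, ∀ R : Language ℕ, Rat R → ({w : List ℕ | w ∈ L ∧ w ∈ R} : Language ℕ) ∈ F

/-- minimal rational cones: `F` contains strictly the family of the rational languages, and no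
rational cone lies strictly between them -/
def IsMinimal (F : Set (Language ℕ)) : Prop :=
  IsCone F ∧ {L | Rat L} ⊂ F ∧ ∀ M : Set (Language ℕ), IsCone M → {L | Rat L} ⊂ M → ¬ M ⊂ F

/-- all letters of `w` lie in `Γ` -/
def Ov (Γ : Finset ℕ) (w : List ℕ) : Prop := ∀ a ∈ w, a ∈ Γ

/-- the words `b ^ j u` with `u` over `Γ`, `u ∉ R j` -/
def LR (Γ : Finset ℕ) (b : ℕ) (R : ℕ → Language ℕ) : Language ℕ :=
  {w : List ℕ | ∃ (j : ℕ) (u : List ℕ), Ov Γ u ∧ u ∉ R j ∧ w = List.replicate j b ++ u}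

/-- the words over `Γ` and `b` in which some complete block (between two letters `b`, or before the
first one), with `i` letters `b` before it, is not in `R i` -/
def BR (Γ : Finset ℕ) (b : ℕ) (R : ℕ → Language ℕ) : Language ℕ :=
  {w : List ℕ | ∃ p u s : List ℕ, (p = [] ∨ ∃ p', p = p' ++ [b]) ∧ Ov (insert b Γ) p ∧ Ov Γ u ∧
    Ov (insert b Γ) s ∧ u ∉ R (p.count b) ∧ w = p ++ u ++ [b] ++ s}

/-- the same with at most `n` letters `b` before the block -/
def VR (Γ : Finset ℕ) (b : ℕ) (R : ℕ → Language ℕ) (n : ℕ) : Language ℕ :=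
  {w : List ℕ | ∃ p u s : List ℕ, (p = [] ∨ ∃ p', p = p' ++ [b]) ∧ Ov (insert b Γ) p ∧ Ov Γ u ∧
    Ov (insert b Γ) s ∧ p.count b ≤ n ∧ u ∉ R (p.count b) ∧ w = p ++ u ++ [b] ++ s}

/-- the hypotheses on the sets `R j` -/
structure Hyp (Γ : Finset ℕ) (b : ℕ) (R : ℕ → Language ℕ) : Prop where
  nb : b ∉ Γ
  ov : ∀ j, ∀ u ∈ R j, Ov Γ u
  reg : ∀ j, (R j).IsRegular
  ne : ∀ j, ∃ u, u ∈ R j
  fin : ∀ u : List ℕ, {j | u ∈ R j}.Finite

/-- paths from `p` to `q` in a graph with edges `E` -/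
def IsPath {σ E : Type} (src tgt : E → σ) : σ → List E → σ → Prop
  | p, [], q => p = q
  | p, e :: es, q => src e = p ∧ IsPath src tgt (tgt e) es q

/-- finite transducers: finite graphs whose edges read the word `inp` and write the word `out` -/
structure FT where
  σ : Type
  E : Type
  fσ : Finite σ
  fE : Finite E
  src : E → σ
  tgt : E → σ
  inp : E → List ℕ
  out : E → List ℕ
  ini : Set σ
  fin : Set σ

/-- the image of a language under a finite transducer -/
def FT.img (T : FT) (B : Language ℕ) : Language ℕ :=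
  {w : List ℕ | ∃ p ∈ T.ini, ∃ q ∈ T.fin, ∃ es : List T.E, IsPath T.src T.tgt p es q ∧
    es.flatMap T.inp ∈ B ∧ es.flatMap T.out = w}

/-- the images of `B` under finite transducers -/
def TC (B : Language ℕ) : Set (Language ℕ) := {A | ∃ T : FT, A = T.img B}

end Pool.Agent.Lib.F1c4
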