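import Pool.Agent.Lib.F1c4.CountW

/-!
# Module F1c4.Del: removing an exact amount of weight from a long path (MP_f1c4ef_lc)

PROOF of `del`. Let `N = Nat.card σ`, `B = ℓ * (N + 2)` (`0 < ℓ`). For a path `es` from `p` to `q` and a
list `ls` of numbers let `Dec p es q ls` mean: for every sublist `ls'` of `ls` there is a path `es'` from `p`
to `q`, a sublist of `es`, with (weight of `es'`) + `ls'.sum` = (weight of `es`), and `ω es' = ω es` for
every `ω : E → ℕ` which vanishes on the loops inside `es` (as in the statement).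
(1) `Dec p es q []` for every path (take `es' = es`).
(2) If `es = x ++ y ++ z` is a path and `y` a loop of weight `l > 0`, then `Dec p es q [l]`
(`es' = x ++ z`, `IsPath.of_loop`; the sublists of `[l]` are `[]` and `[l]`).
(3) `Dec p a s ls1` and `Dec s c q ls2` imply `Dec p (a ++ c) q (ls1 ++ ls2)`
(`List.sublist_append_iff`; a loop inside `a` or `c` is a loop inside `a ++ c`).
(4) By induction on `n`: if the weight of `es` is at least `n * B`, then there is `ls` of length `n`
with all entries in `[1, B]` and `Dec p es q ls`. Step: the weight of `es` is at least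
`ℓ * (N + 1)`, so `es = a ++ c` with `ℓ * (N + 1) ≤ weight a ≤ ℓ * (N + 2)` (first prefix with this
property, induction on `es`; one edge adds at most `ℓ`). By `count_le` for `w` and `m = ℓ` some loop
inside `a` has positive weight, and its weight is at most the weight of `a`, so at most `B`. Use (2),
the induction hypothesis for `c` and (3).
(5) Let `C = (B * D + 1) * B + 1`. If the weight of `es` is at least `C`, take `n = B * D + 1` in
(4). Some `l ∈ [1, B]` occurs at least `D` times in `ls` (otherwise the length `n` of `ls`, which is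
the sum of the counts of the `l ∈ [1, B]`, is at most `B * D`). As `l ∣ D`, the list
`List.replicate (D / l) l` is a sublist of `ls` (`List.le_count_iff_replicate_sublist` or similar,
`D / l ≤ D`), with sum `D`.
-/

set_option autoImplicit false

namespace Pool.Agent.Lib.F1c4

namespace DelAux

variable {σ E : Type}

/-- `ω` vanishes on the loops inside `es` -/
def Van (src tgt : E → σ) (es : List E) (ω : E → ℕ) : Prop :=
  ∀ x y z : List E, ∀ s : σ, es = x ++ y ++ z → IsPath src tgt s y s → (y.map ω).sum = 0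

theorem Van.left {src tgt : E → σ} {a c : List E} {ω : E → ℕ} (h : Van src tgt (a ++ c) ω) :
    Van src tgt a ω := by
  intro x y z s e hy
  exact h x y (z ++ c) s (by rw [e]; simp only [List.append_assoc]) hy

theorem Van.right {src tgt : E → σ} {a c : List E} {ω : E → ℕ} (h : Van src tgt (a ++ c) ω) :
    Van src tgt c ω := by
  intro x y z s e hy
  exact h (a ++ x) y z s (by rw [e]; simp only [List.append_assoc]) hy

/-- every part of `ls` can be removed from `es` -/
def Dec (src tgt : E → σ) (w : E → ℕ) (p : σ) (es : List E) (q : σ) (ls : List ℕ) : Prop :=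
  ∀ ls' : List ℕ, ls'.Sublist ls → ∃ es' : List E, IsPath src tgt p es' q ∧ es'.Sublist es ∧
    (es'.map w).sum + ls'.sum = (es.map w).sum ∧
    ∀ ω : E → ℕ, Van src tgt es ω → (es'.map ω).sum = (es.map ω).sum

theorem dec_nil {src tgt : E → σ} {w : E → ℕ} {p q : σ} {es : List E}
    (h : IsPath src tgt p es q) : Dec src tgt w p es q [] := by
  intro ls' hls
  rw [List.sublist_nil] at hls
  subst hls
  exact ⟨es, h, List.Sublist.refl _, by simp, fun _ _ => rfl⟩

theorem dec_loop {src tgt : E → σ} {w : E → ℕ} {p q s : σ} {x y z : List E}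
    (h : IsPath src tgt p (x ++ y ++ z) q) (hy : IsPath src tgt s y s)
    (hl : 0 < (y.map w).sum) : Dec src tgt w p (x ++ y ++ z) q [(y.map w).sum] := by
  intro ls' hls
  have hne : y ≠ [] := by
    rintro rfl
    simp at hl
  rcases List.sublist_singleton.1 hls with rfl | rfl
  · exact ⟨x ++ y ++ z, h, List.Sublist.refl _, by simp, fun _ _ => rfl⟩
  · obtain ⟨h1, h2⟩ := IsPath.of_loop h hy hne
    refine ⟨x ++ z, h1.trans h2, ?_, ?_, ?_⟩
    · exact (List.sublist_append_left x y).append (List.Sublist.refl z)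
    · simp only [List.map_append, List.sum_append, List.sum_cons, List.sum_nil]
      omega
    · intro ω hω
      have h3 := hω x y z s rfl hy
      simp only [List.map_append, List.sum_append, h3]
      omega

theorem dec_append {src tgt : E → σ} {w : E → ℕ} {p s q : σ} {a c : List E} {ls1 ls2 : List ℕ}
    (h1 : Dec src tgt w p a s ls1) (h2 : Dec src tgt w s c q ls2) :
    Dec src tgt w p (a ++ c) q (ls1 ++ ls2) := by
  intro ls' hls
  obtain ⟨l1, l2, rfl, hl1, hl2⟩ := List.sublist_append_iff.1 hls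
  obtain ⟨a', ha1, ha2, ha3, ha4⟩ := h1 l1 hl1
  obtain ⟨c', hc1, hc2, hc3, hc4⟩ := h2 l2 hl2
  refine ⟨a' ++ c', ha1.trans hc1, ha2.append hc2, ?_, ?_⟩
  · simp only [List.map_append, List.sum_append]
    omega
  · intro ω hω
    simp only [List.map_append, List.sum_append, ha4 ω hω.left, hc4 ω hω.right]

theorem split {w : E → ℕ} {ℓ : ℕ} (hℓ : ∀ e, w e ≤ ℓ) (es : List E) :
    ∀ m : ℕ, m ≤ (es.map w).sum → ∃ a c, es = a ++ c ∧ m ≤ (a.map w).sum ∧
      (a.map w).sum ≤ m + ℓ := by
  induction es with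
  | nil =>
    intro m hm
    exact ⟨[], [], rfl, hm, by simp⟩
  | cons e es ih =>
    intro m hm
    rw [List.map_cons, List.sum_cons] at hm
    have he := hℓ e
    by_cases h : m ≤ w e
    · refine ⟨[e], es, rfl, ?_, ?_⟩
      · simpa using h
      · simp only [List.map_cons, List.map_nil, List.sum_cons, List.sum_nil]
        omega
    · obtain ⟨a, c, h1, h2, h3⟩ := ih (m - w e) (by omega)
      refine ⟨e :: a, c, by rw [h1]; rfl, ?_, ?_⟩
      · rw [List.map_cons, List.sum_cons]
        omega
      · rw [List.map_cons, List.sum_cons]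
        omega

theorem many [Finite σ] {src tgt : E → σ} {w : E → ℕ} {ℓ : ℕ} (hℓ0 : 0 < ℓ)
    (hℓ : ∀ e, w e ≤ ℓ) (q : σ) (n : ℕ) : ∀ (p : σ) (es : List E), IsPath src tgt p es q →
      n * (ℓ * (Nat.card σ + 2)) ≤ (es.map w).sum →
      ∃ ls : List ℕ, ls.length = n ∧ (∀ l ∈ ls, 1 ≤ l ∧ l ≤ ℓ * (Nat.card σ + 2)) ∧
        Dec src tgt w p es q ls := by
  induction n with
  | zero =>
    intro p es h _
    exact ⟨[], rfl, by simp, dec_nil h⟩
  | succ n ih =>
    intro p es h hw
    have e0 : ℓ * (Nat.card σ + 2) = ℓ * (Nat.card σ + 1) + ℓ := by ring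
    have e1 : (n + 1) * (ℓ * (Nat.card σ + 2)) =
        n * (ℓ * (Nat.card σ + 2)) + (ℓ * (Nat.card σ + 1) + ℓ) := by ring
    have e2 : ℓ * (Nat.card σ + 1) = ℓ * Nat.card σ + ℓ := by ring
    obtain ⟨a, c, rfl, h2, h3⟩ := split hℓ es (ℓ * (Nat.card σ + 1)) (by omega)
    obtain ⟨s, hs1, hs2⟩ := isPath_append.1 h
    have h4 : ¬ Van src tgt a w := by
      intro hv
      have h5 := count_le src tgt w ℓ hℓ p s a hs1 hv
      omega
    unfold Van at h4
    push Not at h4
    obtain ⟨x, y, z, s', rfl, hy, hy0⟩ := h4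
    have h6 := dec_loop (w := w) hs1 hy (Nat.pos_of_ne_zero hy0)
    rw [List.map_append, List.sum_append] at hw
    obtain ⟨ls, hl1, hl2, hl3⟩ := ih s c hs2 (by omega)
    refine ⟨[(y.map w).sum] ++ ls, ?_, ?_, dec_append h6 hl3⟩
    · rw [List.length_append, hl1, List.length_singleton]
      omega
    · intro l hl
      rw [List.mem_append, List.mem_singleton] at hl
      rcases hl with rfl | hl
      · refine ⟨Nat.pos_of_ne_zero hy0, ?_⟩
        simp only [List.map_append, List.sum_append] at h3
        omega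
      · exact hl2 l hl

theorem pigeon {B D : ℕ} (ls : List ℕ) (hls : ∀ l ∈ ls, 1 ≤ l ∧ l ≤ B)
    (hn : B * D < ls.length) : ∃ l ∈ ls, D ≤ ls.count l := by
  by_contra hcon
  push Not at hcon
  have h1 : ∑ l ∈ ls.toFinset, ls.count l = ls.length := List.sum_toFinset_count_eq_length ls
  have h2 : ls.toFinset ⊆ Finset.Icc 1 B := by
    intro l hl
    rw [List.mem_toFinset] at hl
    rw [Finset.mem_Icc]
    exact hls l hl
  have h3 := Finset.card_le_card h2
  rw [Nat.card_Icc] at h3
  have h4 : ∑ l ∈ ls.toFinset, ls.count l ≤ ls.toFinset.card • D :=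
    Finset.sum_le_card_nsmul _ _ _ fun l hl => (hcon l (List.mem_toFinset.1 hl)).le
  rw [smul_eq_mul, h1] at h4
  have h5 : ls.toFinset.card * D ≤ B * D := Nat.mul_le_mul_right D (by omega)
  omega

end DelAux

open DelAux

/-- from a long path one can remove loops of total weight exactly `D` -/
theorem del {σ E : Type} [Finite σ] (src tgt : E → σ) (w : E → ℕ) (ℓ D : ℕ) (hℓ0 : 0 < ℓ)
    (hℓ : ∀ e, w e ≤ ℓ) (hD : ∀ l, 1 ≤ l → l ≤ ℓ * (Nat.card σ + 2) → l ∣ D) :
    ∃ C : ℕ, ∀ (p q : σ) (es : List E), IsPath src tgt p es q → C ≤ (es.map w).sum →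
      ∃ es' : List E, IsPath src tgt p es' q ∧ es'.Sublist es ∧
        (es'.map w).sum + D = (es.map w).sum ∧
        ∀ ω : E → ℕ, (∀ x y z : List E, ∀ s : σ, es = x ++ y ++ z → IsPath src tgt s y s →
          (y.map ω).sum = 0) → (es'.map ω).sum = (es.map ω).sum := by
  set B : ℕ := ℓ * (Nat.card σ + 2) with hB
  refine ⟨(B * D + 1) * B, ?_⟩
  intro p q es h hC
  obtain ⟨ls, hl1, hl2, hl3⟩ := many hℓ0 hℓ q (B * D + 1) p es h hC
  obtain ⟨l, hl, hcount⟩ := pigeon (B := B) (D := D) ls hl2 (by omega)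
  obtain ⟨h1l, hlB⟩ := hl2 l hl
  have hdvd := hD l h1l hlB
  have hle : D / l ≤ ls.count l := le_trans (Nat.div_le_self D l) hcount
  obtain ⟨es', h1, h2, h3, h4⟩ := hl3 (List.replicate (D / l) l)
    (List.replicate_sublist_iff.2 hle)
  refine ⟨es', h1, h2, ?_, h4⟩
  rw [List.sum_replicate, smul_eq_mul, Nat.div_mul_cancel hdvd] at h3
  exact h3

end Pool.Agent.Lib.F1c4
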