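import Pool.Agent.Lib.F1c4.Del

/-!
# Module F1c4.DelP: the same with the state of an automaton preserved (MP_f1c4ef_lc)

PROOF of `delP`. Apply `del` to the product graph with states `σ × τ`, edges `E × τ`,
`src (e, t) = (src e, t)`, `tgt (e, t) = (tgt e, M.evalFrom t (inp e))`, weight `w (e, t) = w e`
(`Nat.card (σ × τ)` in `hD`). A path `es` from `p` to `q` lifts to a path `es2` from `(p, t)` to
`(q, M.evalFrom t (es.flatMap inp))` with `es2.map Prod.fst = es`, and a path `es2` from `(p, t)` to
`(q, t')` projects to the path `es2.map Prod.fst` from `p` to `q` with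
`t' = M.evalFrom t ((es2.map Prod.fst).flatMap inp)` (inductions on the lists,
`DFA.evalFrom_of_append`). Use this for `t = M.start`. A loop inside `es2` projects to a loop inside
`es`, so `ω (e, t) = (inp e).count b` vanishes on the loops; `List.count` of a `flatMap` is the sum
of the counts (`List.count_flatMap`). Sublists are mapped to sublists (`List.Sublist.map`).
-/

set_option autoImplicit false

namespace Pool.Agent.Lib.F1c4

namespace DelPAux

variable {σ E τ : Type}

/-- the source in the product graph -/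
def src2 (src : E → σ) : E × τ → σ × τ := fun x => (src x.1, x.2)

/-- the target in the product graph -/
def tgt2 (tgt : E → σ) (inp : E → List ℕ) (M : DFA ℕ τ) : E × τ → σ × τ :=
  fun x => (tgt x.1, M.evalFrom x.2 (inp x.1))

theorem lift {src tgt : E → σ} {inp : E → List ℕ} {M : DFA ℕ τ} (es : List E) :
    ∀ (p q : σ) (t : τ), IsPath src tgt p es q →
      ∃ es2 : List (E × τ), IsPath (src2 src) (tgt2 tgt inp M) (p, t) es2
        (q, M.evalFrom t (es.flatMap inp)) ∧ es2.map Prod.fst = es := by
  induction es with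
  | nil =>
    intro p q t h
    have h1 : p = q := h
    refine ⟨[], ?_, rfl⟩
    show (p, t) = (q, M.evalFrom t ([].flatMap inp))
    rw [h1]
    rfl
  | cons e es ih =>
    intro p q t h
    obtain ⟨h1, h2⟩ := h
    obtain ⟨es2, h3, h4⟩ := ih (tgt e) q (M.evalFrom t (inp e)) h2
    refine ⟨(e, t) :: es2, ⟨?_, ?_⟩, ?_⟩
    · show (src e, t) = (p, t)
      rw [h1]
    · rw [List.flatMap_cons, DFA.evalFrom_of_append]
      exact h3
    · rw [List.map_cons, h4]

theorem proj {src tgt : E → σ} {inp : E → List ℕ} {M : DFA ℕ τ} (es2 : List (E × τ)) :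
    ∀ (p q : σ) (t t' : τ), IsPath (src2 src) (tgt2 tgt inp M) (p, t) es2 (q, t') →
      IsPath src tgt p (es2.map Prod.fst) q ∧
        t' = M.evalFrom t ((es2.map Prod.fst).flatMap inp) := by
  induction es2 with
  | nil =>
    intro p q t t' h
    have h1 : (p, t) = (q, t') := h
    rw [Prod.mk.injEq] at h1
    exact ⟨h1.1, h1.2.symm⟩
  | cons x es2 ih =>
    intro p q t t' h
    obtain ⟨h1, h2⟩ := h
    have h1' : (src x.1, x.2) = (p, t) := h1
    rw [Prod.mk.injEq] at h1'
    obtain ⟨h3, h4⟩ := ih (tgt x.1) q (M.evalFrom x.2 (inp x.1)) t' h2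
    refine ⟨⟨h1'.1, h3⟩, ?_⟩
    rw [List.map_cons, List.flatMap_cons, DFA.evalFrom_of_append, ← h1'.2]
    exact h4

theorem count_sum (inp : E → List ℕ) (b : ℕ) (es2 : List (E × τ)) :
    (es2.map fun x => (inp x.1).count b).sum = ((es2.map Prod.fst).flatMap inp).count b := by
  induction es2 with
  | nil => rfl
  | cons x es2 ih =>
    rw [List.map_cons, List.sum_cons, List.map_cons, List.flatMap_cons, List.count_append, ih]

theorem weight_sum (w : E → ℕ) (es2 : List (E × τ)) :
    (es2.map fun x => w x.1).sum = ((es2.map Prod.fst).map w).sum := by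
  rw [List.map_map]
  rfl

end DelPAux

open DelPAux

/-- removing weight `D` by loops without the letter `b`, with the state of the automaton `M` after
reading `inp` preserved -/
theorem delP {σ E τ : Type} [Finite σ] [Finite τ] (src tgt : E → σ) (inp : E → List ℕ) (b : ℕ)
    (M : DFA ℕ τ) (w : E → ℕ) (ℓ D : ℕ) (hℓ0 : 0 < ℓ) (hℓ : ∀ e, w e ≤ ℓ)
    (hD : ∀ l, 1 ≤ l → l ≤ ℓ * (Nat.card (σ × τ) + 2) → l ∣ D) :
    ∃ C : ℕ, ∀ (p q : σ) (es : List E), IsPath src tgt p es q → C ≤ (es.map w).sum →
      (∀ x y z : List E, ∀ s : σ, es = x ++ y ++ z → IsPath src tgt s y s →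
        (y.flatMap inp).count b = 0) →
      ∃ es' : List E, IsPath src tgt p es' q ∧ es'.Sublist es ∧
        (es'.map w).sum + D = (es.map w).sum ∧
        (es'.flatMap inp).count b = (es.flatMap inp).count b ∧
        M.eval (es'.flatMap inp) = M.eval (es.flatMap inp) := by
  obtain ⟨C, hC⟩ := del (src2 (τ := τ) src) (tgt2 tgt inp M) (fun x : E × τ => w x.1) ℓ D hℓ0
    (fun x => hℓ x.1) hD
  refine ⟨C, fun p q es h hw hv => ?_⟩
  obtain ⟨es2, h1, h2⟩ := lift (M := M) (inp := inp) es p q M.start h
  obtain ⟨es2', h3, h4, h5, h6⟩ := hC _ _ es2 h1 (by rw [weight_sum, h2]; exact hw)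
  obtain ⟨h7, h8⟩ := proj es2' p q M.start _ h3
  refine ⟨es2'.map Prod.fst, h7, ?_, ?_, ?_, h8.symm⟩
  · rw [← h2]
    exact h4.map _
  · rw [weight_sum, weight_sum, h2] at h5
    exact h5
  · have h9 := h6 (fun x => (inp x.1).count b) (fun x y z s e hy => by
      rw [count_sum]
      obtain ⟨s1, s2⟩ := s
      refine hv (x.map Prod.fst) (y.map Prod.fst) (z.map Prod.fst) s1 ?_ (proj y s1 s1 s2 s2 hy).1
      rw [← h2, e, List.map_append, List.map_append])
    rw [count_sum, count_sum, h2] at h9
    exact h9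

end Pool.Agent.Lib.F1c4
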