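import Pool.Agent.Lib.F1c4.RegA

/-!
# Module F1c4.Mem: cones contain the languages LR and BR (MP_f1c4ef_lc)

PROOFS.
`nivat`: `inv` for `φ` and the alphabet of `K`, then `inter` with `K`, then `hom` for `h`.
`rat_mem`: take a nonempty `L ∈ F`; `hom` with `fun _ => []` gives the language `{[]}`, `inv` with
`fun _ => []` and the alphabet `S` of the rational language gives all words over `S`, then `inter`.
In the next proofs letters are coded as `4 * a + i`, `i < 3`, and there are marks `3`, `7`, `11`.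
`lr_mem`: `nivat` with `K` = all `[3] ++ P ++ [7] ++ U`, `P` a word in the letter `4 * b`, `U` a word in the
letters `4 * a + 1`, `a ∈ Γ` (regular by `cat_reg` with `A = {[]}`, `star_reg`; `{[]}` is `star_reg ∅`);
`φ`: `3 ↦ x`, `4 * b ↦ y`, `7 ↦ []`, `4 * a + 1 ↦ [a]`; `h`: `3, 7 ↦ []`, `4 * b ↦ [b]`, `4 * a + 1 ↦ [a]`.
(`φ n = if n = 3 then x else if n = 7 then [] else if n % 4 = 1 then [n / 4] else y`, and similarly `h`.)
For `t = [3] ++ replicate j (4 * b) ++ [7] ++ u.map (4 * · + 1)` one gets `φ t = x y^j u`, `h t = b^j u`.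
`br_mem`: `nivat` with `K` = all `[3] ++ P ++ [7] ++ U ++ [11] ++ T`, `P` a word in the letters `4 * a`,
`a ∈ insert b Γ`, empty or ending with `4 * b` (`last_reg`), `U` as before, `T` a word in the letters
`4 * a + 2`, `a ∈ insert b Γ`; `φ`: `3 ↦ x`, `4 * b ↦ y`, `4 * a ↦ []` for `a ≠ b`, `7, 11 ↦ []`,
`4 * a + 1 ↦ [a]`, `4 * a + 2 ↦ []`; `h`: `3, 7 ↦ []`, `11 ↦ [b]`, `4 * a + i ↦ [a]`, `i < 3`. For `P` = the code
of `p`, `U` = the code of `u`, `T` = the code of `s` one gets `φ t = x y ^ (p.count b) u` and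
`h t = p ++ u ++ [b] ++ s`. (A word in the letters `4 * a + i`, `a ∈ Δ`, is `v.map (4 * · + i)` with
`v` = its image under `· / 4`.)
-/

set_option autoImplicit false

namespace Pool.Agent.Lib.F1c4

namespace MemAux

theorem dec {Δ : Finset ℕ} {i : ℕ} (_hi : i < 4) {w : List ℕ}
    (hw : Ov (Δ.image (fun a => 4 * a + i)) w) :
    ∃ v : List ℕ, Ov Δ v ∧ w = v.map (fun a => 4 * a + i) := by
  induction w with
  | nil => exact ⟨[], fun a ha => by simp at ha, rfl⟩
  | cons c w ih =>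
    obtain ⟨v, h1, h2⟩ := ih (fun a ha => hw a (List.mem_cons_of_mem _ ha))
    obtain ⟨a, ha, hac⟩ := Finset.mem_image.1 (hw c List.mem_cons_self)
    refine ⟨a :: v, ?_, by rw [List.map_cons, ← h2, hac]⟩
    intro d hd
    rcases List.mem_cons.1 hd with rfl | hd
    · exact ha
    · exact h1 d hd

theorem enc {Δ : Finset ℕ} (i : ℕ) {v : List ℕ} (hv : Ov Δ v) :
    Ov (Δ.image (fun a => 4 * a + i)) (v.map (fun a => 4 * a + i)) := by
  intro c hc
  obtain ⟨a, ha, rfl⟩ := List.mem_map.1 hc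
  exact Finset.mem_image.2 ⟨a, hv a ha, rfl⟩

theorem flat_single (f g : ℕ → List ℕ) (e : ℕ → ℕ) (v : List ℕ)
    (h : ∀ a ∈ v, f (e a) = g a) : (v.map e).flatMap f = v.flatMap g := by
  induction v with
  | nil => rfl
  | cons a v ih =>
    rw [List.map_cons, List.flatMap_cons, List.flatMap_cons, h a List.mem_cons_self,
      ih (fun b hb => h b (List.mem_cons_of_mem _ hb))]

theorem flat_id (v : List ℕ) : v.flatMap (fun a => [a]) = v := by
  induction v with
  | nil => rfl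
  | cons a v ih =>
    rw [List.flatMap_cons, ih]
    rfl

theorem flat_nil (v : List ℕ) : v.flatMap (fun _ => ([] : List ℕ)) = [] := by
  induction v with
  | nil => rfl
  | cons a v ih =>
    rw [List.flatMap_cons, ih]
    rfl

theorem ov_empty {w : List ℕ} (h : Ov ∅ w) : w = [] := by
  cases w with
  | nil => rfl
  | cons a w => exact absurd (h a List.mem_cons_self) (by simp)

end MemAux

theorem nivat {F : Set (Language ℕ)} (hF : IsCone F) {A : Language ℕ} (hA : A ∈ F)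
    {K : Language ℕ} (hK : Rat K) (φ h : ℕ → List ℕ) :
    ({w : List ℕ | ∃ t ∈ K, t.flatMap φ ∈ A ∧ w = t.flatMap h} : Language ℕ) ∈ F := by
  obtain ⟨hKr, S, hS⟩ := hK
  have h1 := hF.hom _ (hF.inter _ (hF.inv A hA φ S) K ⟨hKr, S, hS⟩) h
  have h2 : ({w : List ℕ | ∃ t ∈ K, t.flatMap φ ∈ A ∧ w = t.flatMap h} : Language ℕ) =
      ({w : List ℕ | ∃ v ∈ ({w : List ℕ | w ∈ ({w : List ℕ | (∀ a ∈ w, a ∈ S) ∧
        w.flatMap φ ∈ A} : Language ℕ) ∧ w ∈ K} : Language ℕ), w = v.flatMap h} :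
          Language ℕ) := by
    ext w
    constructor
    · rintro ⟨t, ht, h3, h4⟩
      exact ⟨t, ⟨⟨hS t ht, h3⟩, ht⟩, h4⟩
    · rintro ⟨t, ⟨⟨-, h3⟩, ht⟩, h4⟩
      exact ⟨t, ht, h3, h4⟩
  rw [h2]
  exact h1

theorem rat_mem {F : Set (Language ℕ)} (hF : IsCone F) {K : Language ℕ} (hK : Rat K) : K ∈ F := by
  obtain ⟨L, hL, w0, hw0⟩ := hF.nonempty
  have h1 := hF.hom L hL (fun _ => [])
  have h2 := nivat hF h1 hK (fun _ => []) (fun a => [a])
  have h3 : K = ({w : List ℕ | ∃ t ∈ K, t.flatMap (fun _ => []) ∈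
      ({w : List ℕ | ∃ v ∈ L, w = v.flatMap (fun _ => [])} : Language ℕ) ∧
        w = t.flatMap (fun a => [a])} : Language ℕ) := by
    ext w
    constructor
    · intro hw
      refine ⟨w, hw, ⟨w0, hw0, ?_⟩, (MemAux.flat_id w).symm⟩
      rw [MemAux.flat_nil, MemAux.flat_nil]
    · rintro ⟨t, ht, -, rfl⟩
      rw [MemAux.flat_id]
      exact ht
  rw [h3]
  exact h2

namespace MemAux

/-- the words `[3] ++ P` with `P ∈ A` -/
def KA (A : Language ℕ) : Language ℕ :=
  {w : List ℕ | ∃ u ∈ ({w : List ℕ | Ov ∅ w} : Language ℕ), ∃ v ∈ A, w = u ++ [3] ++ v}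

/-- the words `A ++ [c] ++ B` -/
def KB (c : ℕ) (A B : Language ℕ) : Language ℕ :=
  {w : List ℕ | ∃ u ∈ A, ∃ v ∈ B, w = u ++ [c] ++ v}

theorem mem_KA {A : Language ℕ} {w : List ℕ} : w ∈ KA A ↔ ∃ v ∈ A, w = [3] ++ v := by
  constructor
  · rintro ⟨u, hu, v, hv, rfl⟩
    have h1 : u = [] := ov_empty hu
    rw [h1]
    exact ⟨v, hv, rfl⟩
  · rintro ⟨v, hv, rfl⟩
    exact ⟨[], fun a ha => by simp at ha, v, hv, rfl⟩

theorem KA_reg {A : Language ℕ} (hA : A.IsRegular) : (KA A).IsRegular := by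
  refine cat_reg 3 (star_reg ∅) hA ?_
  intro u hu
  have h1 : u = [] := ov_empty hu
  rw [h1]
  simp

/-- words whose letters lie in a finite set -/
def Al (S : Finset ℕ) (A : Language ℕ) : Prop := ∀ w ∈ A, ∀ a ∈ w, a ∈ S

theorem KA_al {S : Finset ℕ} {A : Language ℕ} (h : Al S A) : Al (insert 3 S) (KA A) := by
  intro w hw a ha
  obtain ⟨v, hv, rfl⟩ := mem_KA.1 hw
  rcases List.mem_append.1 ha with h1 | h1
  · rw [List.mem_singleton] at h1
    rw [h1]
    exact Finset.mem_insert_self _ _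
  · exact Finset.mem_insert_of_mem (h v hv a h1)

theorem KB_al {S T : Finset ℕ} {c : ℕ} {A B : Language ℕ} (hA : Al S A) (hB : Al T B) :
    Al (insert c (S ∪ T)) (KB c A B) := by
  rintro w ⟨u, hu, v, hv, rfl⟩ a ha
  rcases List.mem_append.1 ha with h1 | h1
  · rcases List.mem_append.1 h1 with h2 | h2
    · exact Finset.mem_insert_of_mem (Finset.mem_union_left _ (hA u hu a h2))
    · rw [List.mem_singleton] at h2
      rw [h2]
      exact Finset.mem_insert_self _ _
  · exact Finset.mem_insert_of_mem (Finset.mem_union_right _ (hB v hv a h1))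

theorem KB_reg {c : ℕ} {S : Finset ℕ} {A B : Language ℕ} (hA : A.IsRegular)
    (hB : B.IsRegular) (hS : Al S A) (hc : c ∉ S) : (KB c A B).IsRegular :=
  cat_reg c hA hB (fun u hu h => hc (hS u hu c h))

/-- the codes of the words over `Γ` -/
def Cd (Γ : Finset ℕ) (i : ℕ) : Language ℕ :=
  {w : List ℕ | Ov (Γ.image (fun a => 4 * a + i)) w}

theorem Cd_al (Γ : Finset ℕ) (i : ℕ) : Al (Γ.image (fun a => 4 * a + i)) (Cd Γ i) :=
  fun _ hw => hw

theorem Cd_reg (Γ : Finset ℕ) (i : ℕ) : (Cd Γ i).IsRegular := star_reg _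

/-- the codes of the words over `Γ` which are empty or end with `b` -/
def Cl (Γ : Finset ℕ) (b : ℕ) : Language ℕ :=
  {w : List ℕ | w ∈ Cd Γ 0 ∧ (w = [] ∨ ∃ w', w = w' ++ [4 * b])}

theorem Cl_al (Γ : Finset ℕ) (b : ℕ) : Al (Γ.image (fun a => 4 * a + 0)) (Cl Γ b) :=
  fun _ hw => hw.1

theorem Cl_reg (Γ : Finset ℕ) (b : ℕ) : (Cl Γ b).IsRegular :=
  (Cd_reg Γ 0).inf (last_reg (4 * b))

/-- the letter code of `lr_mem` -/
def ph1 (x y : List ℕ) (n : ℕ) : List ℕ :=
  if n = 3 then x else if n = 7 then [] else if n % 4 = 1 then [n / 4] else y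

/-- the decoding -/
def h1 (n : ℕ) : List ℕ := if n = 3 then [] else if n = 7 then [] else [n / 4]

theorem rep_flat (y : List ℕ) (e : ℕ) (f : ℕ → List ℕ) (h : f e = y) (j : ℕ) :
    (List.replicate j e).flatMap f = (List.replicate j y).flatten := by
  induction j with
  | zero => rfl
  | succ j ih =>
    rw [List.replicate_succ, List.flatMap_cons, List.replicate_succ, List.flatten_cons, ih, h]

theorem rep_one (b j : ℕ) : (List.replicate j [b]).flatten = List.replicate j b := by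
  induction j with
  | zero => rfl
  | succ j ih =>
    rw [List.replicate_succ, List.flatten_cons, ih, List.replicate_succ]
    rfl

theorem ph1_t (x y u : List ℕ) (b j : ℕ) :
    ([3] ++ List.replicate j (4 * b + 0) ++ [7] ++ u.map (fun a => 4 * a + 1)).flatMap
      (ph1 x y) = x ++ (List.replicate j y).flatten ++ u := by
  rw [List.flatMap_append, List.flatMap_append, List.flatMap_append,
    rep_flat y (4 * b + 0) (ph1 x y) ?_ j,
    flat_single (ph1 x y) (fun a => [a]) (fun a => 4 * a + 1) u ?_, flat_id]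
  · simp [ph1]
  · intro a _
    have e1 : 4 * a + 1 ≠ 3 := by omega
    have e2 : 4 * a + 1 ≠ 7 := by omega
    have e3 : (4 * a + 1) % 4 = 1 := by omega
    have e4 : (4 * a + 1) / 4 = a := by omega
    unfold ph1
    rw [if_neg e1, if_neg e2, if_pos e3, e4]
  · have e1 : 4 * b + 0 ≠ 3 := by omega
    have e2 : 4 * b + 0 ≠ 7 := by omega
    have e3 : ¬ (4 * b + 0) % 4 = 1 := by omega
    unfold ph1
    rw [if_neg e1, if_neg e2, if_neg e3]

theorem h1_t (u : List ℕ) (b j : ℕ) :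
    ([3] ++ List.replicate j (4 * b + 0) ++ [7] ++ u.map (fun a => 4 * a + 1)).flatMap
      h1 = List.replicate j b ++ u := by
  rw [List.flatMap_append, List.flatMap_append, List.flatMap_append,
    rep_flat [b] (4 * b + 0) h1 ?_ j,
    flat_single h1 (fun a => [a]) (fun a => 4 * a + 1) u ?_, flat_id, rep_one]
  · simp [h1]
  · intro a _
    have e1 : 4 * a + 1 ≠ 3 := by omega
    have e2 : 4 * a + 1 ≠ 7 := by omega
    have e4 : (4 * a + 1) / 4 = a := by omega
    unfold h1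
    rw [if_neg e1, if_neg e2, e4]
  · have e1 : 4 * b + 0 ≠ 3 := by omega
    have e2 : 4 * b + 0 ≠ 7 := by omega
    have e4 : (4 * b + 0) / 4 = b := by omega
    unfold h1
    rw [if_neg e1, if_neg e2, e4]

/-- the letter code of `br_mem` -/
def ph2 (x y : List ℕ) (b n : ℕ) : List ℕ :=
  if n = 3 then x else if n % 4 = 1 then [n / 4] else if n = 4 * b then y else []

/-- the decoding -/
def h2 (b n : ℕ) : List ℕ :=
  if n = 3 then [] else if n = 7 then [] else if n = 11 then [b] else [n / 4]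

theorem cnt_flat (x y : List ℕ) (b : ℕ) (p : List ℕ) :
    (p.map (fun a => 4 * a + 0)).flatMap (ph2 x y b) =
      (List.replicate (p.count b) y).flatten := by
  induction p with
  | nil => rfl
  | cons a p ih =>
    rw [List.map_cons, List.flatMap_cons, ih]
    have e1 : 4 * a + 0 ≠ 3 := by omega
    have e3 : ¬ (4 * a + 0) % 4 = 1 := by omega
    by_cases hab : a = b
    · subst hab
      rw [List.count_cons_self, List.replicate_succ, List.flatten_cons]
      unfold ph2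
      rw [if_neg e1, if_neg e3, if_pos (by omega)]
    · rw [List.count_cons_of_ne hab]
      unfold ph2
      rw [if_neg e1, if_neg e3, if_neg (by omega)]
      rfl

theorem ph2_t (x y p u s : List ℕ) (b : ℕ) :
    ([3] ++ p.map (fun a => 4 * a + 0) ++ [7] ++ u.map (fun a => 4 * a + 1) ++ [11] ++
      s.map (fun a => 4 * a + 2)).flatMap (ph2 x y b) =
        x ++ (List.replicate (p.count b) y).flatten ++ u := by
  rw [List.flatMap_append, List.flatMap_append, List.flatMap_append, List.flatMap_append,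
    List.flatMap_append, cnt_flat,
    flat_single (ph2 x y b) (fun a => [a]) (fun a => 4 * a + 1) u ?_, flat_id,
    flat_single (ph2 x y b) (fun _ => []) (fun a => 4 * a + 2) s ?_, flat_nil]
  · have e7 : (7 : ℕ) ≠ 4 * b := by omega
    have e11 : (11 : ℕ) ≠ 4 * b := by omega
    simp [ph2, e7, e11]
  · intro a _
    have e1 : 4 * a + 2 ≠ 3 := by omega
    have e3 : ¬ (4 * a + 2) % 4 = 1 := by omega
    have e4 : 4 * a + 2 ≠ 4 * b := by omega
    unfold ph2
    rw [if_neg e1, if_neg e3, if_neg e4]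
  · intro a _
    have e1 : 4 * a + 1 ≠ 3 := by omega
    have e3 : (4 * a + 1) % 4 = 1 := by omega
    have e4 : (4 * a + 1) / 4 = a := by omega
    unfold ph2
    rw [if_neg e1, if_pos e3, e4]

theorem h2_one (b i : ℕ) (hi : i < 3) (v : List ℕ) :
    (v.map (fun a => 4 * a + i)).flatMap (h2 b) = v := by
  rw [flat_single (h2 b) (fun a => [a]) (fun a => 4 * a + i) v ?_, flat_id]
  intro a _
  have e1 : 4 * a + i ≠ 3 := by omega
  have e2 : 4 * a + i ≠ 7 := by omega
  have e3 : 4 * a + i ≠ 11 := by omega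
  have e4 : (4 * a + i) / 4 = a := by omega
  unfold h2
  rw [if_neg e1, if_neg e2, if_neg e3, e4]

theorem h2_t (p u s : List ℕ) (b : ℕ) :
    ([3] ++ p.map (fun a => 4 * a + 0) ++ [7] ++ u.map (fun a => 4 * a + 1) ++ [11] ++
      s.map (fun a => 4 * a + 2)).flatMap (h2 b) = p ++ u ++ [b] ++ s := by
  rw [List.flatMap_append, List.flatMap_append, List.flatMap_append, List.flatMap_append,
    List.flatMap_append, h2_one b 0 (by omega), h2_one b 1 (by omega), h2_one b 2 (by omega)]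
  simp [h2]

theorem image_not {S : Finset ℕ} {i c : ℕ} (h : c % 4 ≠ i % 4) :
    c ∉ S.image (fun a => 4 * a + i) := by
  intro hc
  obtain ⟨a, _, ha⟩ := Finset.mem_image.1 hc
  omega

end MemAux

theorem lr_mem {F : Set (Language ℕ)} (hF : IsCone F) {A : Language ℕ} (hA : A ∈ F)
    (x y : List ℕ) (Γ : Finset ℕ) (b : ℕ) :
    LR Γ b (fun j => ({u : List ℕ | Ov Γ u ∧ x ++ (List.replicate j y).flatten ++ u ∉ A} :
      Language ℕ)) ∈ F := by
  have e1 : MemAux.Al (insert 3 (({b} : Finset ℕ).image (fun a => 4 * a + 0)))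
      (MemAux.KA (MemAux.Cd {b} 0)) := MemAux.KA_al (MemAux.Cd_al {b} 0)
  have e7 : 7 ∉ insert 3 (({b} : Finset ℕ).image (fun a => 4 * a + 0)) := by
    rw [Finset.mem_insert]
    rintro (h | h)
    · omega
    · exact MemAux.image_not (by omega) h
  have hK : Rat (MemAux.KB 7 (MemAux.KA (MemAux.Cd {b} 0)) (MemAux.Cd Γ 1)) :=
    ⟨MemAux.KB_reg (MemAux.KA_reg (MemAux.Cd_reg {b} 0)) (MemAux.Cd_reg Γ 1) e1 e7, _,
      MemAux.KB_al e1 (MemAux.Cd_al Γ 1)⟩
  have h1 := nivat hF hA hK (MemAux.ph1 x y) MemAux.h1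
  have h2 : LR Γ b (fun j => ({u : List ℕ | Ov Γ u ∧ x ++ (List.replicate j y).flatten ++ u ∉ A} :
      Language ℕ)) = ({w : List ℕ | ∃ t ∈ MemAux.KB 7 (MemAux.KA (MemAux.Cd {b} 0))
        (MemAux.Cd Γ 1), t.flatMap (MemAux.ph1 x y) ∈ A ∧ w = t.flatMap MemAux.h1} :
          Language ℕ) := by
    ext w
    constructor
    · rintro ⟨j, u, hu, huR, rfl⟩
      refine ⟨[3] ++ List.replicate j (4 * b + 0) ++ [7] ++ u.map (fun a => 4 * a + 1),
        ⟨[3] ++ List.replicate j (4 * b + 0), MemAux.mem_KA.2 ⟨_, ?_, rfl⟩,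
          u.map (fun a => 4 * a + 1), MemAux.enc 1 hu, rfl⟩, ?_, (MemAux.h1_t u b j).symm⟩
      · intro a ha
        rw [(List.mem_replicate.1 ha).2]
        exact Finset.mem_image.2 ⟨b, Finset.mem_singleton_self b, rfl⟩
      · rw [MemAux.ph1_t]
        by_contra h3
        exact huR ⟨hu, h3⟩
    · rintro ⟨t, ⟨t1, ht1, t2, ht2, rfl⟩, h3, rfl⟩
      obtain ⟨v, hv, rfl⟩ := MemAux.mem_KA.1 ht1
      obtain ⟨u, hu, rfl⟩ := MemAux.dec (by omega) ht2
      have hv' : v = List.replicate v.length (4 * b + 0) := by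
        apply List.eq_replicate_of_mem
        intro a ha
        obtain ⟨c, hc, hca⟩ := Finset.mem_image.1 (hv a ha)
        rw [Finset.mem_singleton] at hc
        rw [← hca, hc]
      rw [hv'] at h3 ⊢
      rw [MemAux.ph1_t] at h3
      rw [MemAux.h1_t]
      exact ⟨v.length, u, hu, fun h4 => h4.2 h3, rfl⟩
  rw [h2]
  exact h1

theorem br_mem {F : Set (Language ℕ)} (hF : IsCone F) {A : Language ℕ} (hA : A ∈ F)
    (x y : List ℕ) (Γ : Finset ℕ) (b : ℕ) :
    BR Γ b (fun j => ({u : List ℕ | Ov Γ u ∧ x ++ (List.replicate j y).flatten ++ u ∉ A} :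
      Language ℕ)) ∈ F := by
  have a1 := MemAux.KA_al (MemAux.Cl_al (insert b Γ) b)
  have e7 : 7 ∉ insert 3 ((insert b Γ).image (fun a => 4 * a + 0)) := by
    rw [Finset.mem_insert]
    rintro (h | h)
    · omega
    · exact MemAux.image_not (by omega) h
  have r1 := MemAux.KA_reg (MemAux.Cl_reg (insert b Γ) b)
  have r2 := MemAux.KB_reg r1 (MemAux.Cd_reg Γ 1) a1 e7
  have a2 := MemAux.KB_al (c := 7) a1 (MemAux.Cd_al Γ 1)
  have e11 : 11 ∉ insert 7 (insert 3 ((insert b Γ).image (fun a => 4 * a + 0)) ∪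
      Γ.image (fun a => 4 * a + 1)) := by
    rw [Finset.mem_insert, Finset.mem_union, Finset.mem_insert]
    rintro (h | (h | h) | h)
    · omega
    · omega
    · exact MemAux.image_not (by omega) h
    · exact MemAux.image_not (by omega) h
  have r3 := MemAux.KB_reg r2 (MemAux.Cd_reg (insert b Γ) 2) a2 e11
  have a3 := MemAux.KB_al (c := 11) a2 (MemAux.Cd_al (insert b Γ) 2)
  have h1 := nivat hF hA ⟨r3, _, a3⟩ (MemAux.ph2 x y b) (MemAux.h2 b)
  have h2 : BR Γ b (fun j => ({u : List ℕ | Ov Γ u ∧ x ++ (List.replicate j y).flatten ++ u ∉ A} :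
      Language ℕ)) = ({w : List ℕ | ∃ t ∈ MemAux.KB 11 (MemAux.KB 7
        (MemAux.KA (MemAux.Cl (insert b Γ) b)) (MemAux.Cd Γ 1)) (MemAux.Cd (insert b Γ) 2),
        t.flatMap (MemAux.ph2 x y b) ∈ A ∧ w = t.flatMap (MemAux.h2 b)} : Language ℕ) := by
    ext w
    constructor
    · rintro ⟨p, u, s, hp, hpo, hu, hs, huR, rfl⟩
      refine ⟨[3] ++ p.map (fun a => 4 * a + 0) ++ [7] ++ u.map (fun a => 4 * a + 1) ++ [11] ++
        s.map (fun a => 4 * a + 2), ⟨_, ⟨_, MemAux.mem_KA.2 ⟨_, ?_, rfl⟩, _,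
          MemAux.enc 1 hu, rfl⟩, _, MemAux.enc 2 hs, rfl⟩, ?_, (MemAux.h2_t p u s b).symm⟩
      · refine ⟨MemAux.enc 0 hpo, ?_⟩
        rcases hp with rfl | ⟨p', rfl⟩
        · exact Or.inl rfl
        · refine Or.inr ⟨p'.map (fun a => 4 * a + 0), ?_⟩
          rw [List.map_append]
          rfl
      · rw [MemAux.ph2_t]
        by_contra h3
        exact huR ⟨hu, h3⟩
    · rintro ⟨t, ⟨t1, ⟨t11, ht11, t12, ht12, rfl⟩, t2, ht2, rfl⟩, h3, rfl⟩
      obtain ⟨v, ⟨hv, hve⟩, rfl⟩ := MemAux.mem_KA.1 ht11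
      obtain ⟨p, hp, rfl⟩ := MemAux.dec (by omega) hv
      obtain ⟨u, hu, rfl⟩ := MemAux.dec (by omega) ht12
      obtain ⟨s, hs, rfl⟩ := MemAux.dec (by omega) ht2
      rw [MemAux.ph2_t] at h3
      rw [MemAux.h2_t]
      refine ⟨p, u, s, ?_, hp, hu, hs, fun h4 => h4.2 h3, rfl⟩
      rcases hve with h4 | ⟨w', h4⟩
      · exact Or.inl (List.map_eq_nil_iff.1 h4)
      · obtain ⟨p1, p2, h5, h6, h7⟩ := List.map_eq_append_iff.1 h4
        obtain ⟨c, h8, h9⟩ := List.map_eq_singleton_iff.1 h7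
        refine Or.inr ⟨p1, ?_⟩
        have h10 : c = b := by omega
        rw [h5, h8, h10]
  rw [h2]
  exact h1

end Pool.Agent.Lib.F1c4
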