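import Pool.Agent.Lib.F1c4.Path

/-!
# Module F1c4.NonReg: the language BR is not regular (MP_f1c4ef_lc)

PROOF of `br_nonreg`. Let `M` be an automaton (finite set of states) of `BR Γ b R`. Choose `u j ∈ R j` for
all `j` and let `P k = u 0 ++ [b] ++ u 1 ++ [b] ++ ... ++ u (k-1) ++ [b]` (recursion on `k`). More generally let
`good i z` (for `z` a word over `insert b Γ`) mean that all complete blocks of `i letters b + z` ...: it is
enough to use the following two facts.
(1) `P k ∉ BR`, and more: if `P k = p ++ u' ++ [b] ++ s` with `p` empty or ending with `b`, `u'` over `Γ`,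
then `u' = u (p.count b)` (induction on `k`, or: the decomposition of `P k` into blocks is unique, as the
`u j` do not contain `b`).
(2) For `i < i'` the word `Q i i' = u i ++ [b] ++ ... ++ u (i'-1) ++ [b]` satisfies `P i' = P i ++ Q i i'`; it has
`i' - i` letters `b`, `P i` has `i` letters `b`, both are empty or end with `b`.
By the pigeonhole principle (`Finite.exists_ne_map_eq_of_infinite` for `k ↦ M.eval (P k)`) there are
`i < i'` with `M.eval (P i) = M.eval (P i')`. Let `Q = Q i i'`, `d = i' - i ≥ 1`. For all `m` the words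
`P i ++ Q ^ m` lead to the same state as `P i'` (induction on `m`; `DFA.evalFrom_of_append`), so
`P i ++ Q ^ m ++ u i' ++ [b]` leads to the same state as `P (i' + 1)`, which is not in `BR`; so it is
not in `BR`. With `p = P i ++ Q ^ m` (empty or ending with `b`, `i + m * d` letters `b`), `u = u i'`,
`s = []` this means `u i' ∈ R (i + m * d)` for all `m`: contradiction to `H.fin (u i')` (the map
`m ↦ i + m * d` is injective).
Note: `Q ^ m` is `(List.replicate m Q).flatten`.
-/

set_option autoImplicit false

namespace Pool.Agent.Lib.F1c4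

namespace NonRegAux

/-- the word `u 0 b u 1 b ... u (k-1) b` -/
def P (u : ℕ → List ℕ) (b : ℕ) : ℕ → List ℕ
  | 0 => []
  | k + 1 => P u b k ++ (u k ++ [b])

theorem P_end (u : ℕ → List ℕ) (b : ℕ) (k : ℕ) : P u b k = [] ∨ ∃ p', P u b k = p' ++ [b] := by
  cases k with
  | zero => exact Or.inl rfl
  | succ k => exact Or.inr ⟨P u b k ++ u k, by simp [P]⟩

theorem P_count {u : ℕ → List ℕ} {b : ℕ} (hb : ∀ j, b ∉ u j) (k : ℕ) :
    (P u b k).count b = k := by
  induction k with
  | zero => rfl
  | succ k ih =>
    simp only [P, List.count_append, ih, List.count_eq_zero_of_not_mem (hb k), List.count_singleton_self]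

theorem P_ov {u : ℕ → List ℕ} {b : ℕ} {Γ : Finset ℕ} (hu : ∀ j, Ov Γ (u j)) (k : ℕ) :
    Ov (insert b Γ) (P u b k) := by
  induction k with
  | zero => intro a ha; simp [P] at ha
  | succ k ih =>
    intro a ha
    simp only [P, List.mem_append, List.mem_singleton] at ha
    rcases ha with ha | ha | ha
    · exact ih a ha
    · exact Finset.mem_insert_of_mem (hu k a ha)
    · rw [ha]; exact Finset.mem_insert_self _ _

/-- a nonempty suffix of a word ending with `b` ends with `b` -/
theorem suf_end {b : ℕ} {x c y : List ℕ} (h : x ++ c = y ++ [b]) (hc : c ≠ []) :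
    ∃ c', c = c' ++ [b] := by
  rcases List.eq_nil_or_concat c with h0 | ⟨c', z, h0⟩
  · exact absurd h0 hc
  · subst h0
    rw [List.concat_eq_append, ← List.append_assoc] at h
    have := (List.append_inj' h rfl).2
    simp only [List.cons.injEq, and_true] at this
    exact ⟨c', by rw [List.concat_eq_append, this]⟩

theorem key {u : ℕ → List ℕ} {b : ℕ} {Γ : Finset ℕ} {R : ℕ → Language ℕ} (hb : b ∉ Γ)
    (hu : ∀ j, Ov Γ (u j)) (hR : ∀ j, u j ∈ R j) (k : ℕ) :
    ∀ p v s : List ℕ, P u b k = p ++ v ++ [b] ++ s → (p = [] ∨ ∃ p', p = p' ++ [b]) → Ov Γ v →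
      v ∈ R (p.count b) := by
  have hub : ∀ j, b ∉ u j := fun j hj => hb (hu j b hj)
  induction k with
  | zero =>
    intro p v s h _ _
    simp [P] at h
  | succ k ih =>
    intro p v s h hp hv
    have hvb : b ∉ v := fun hj => hb (hv b hj)
    rw [P] at h
    rcases List.append_eq_append_iff.mp h with ⟨a', h1, h2⟩ | ⟨c', h1, h2⟩
    · by_cases ha : a' = []
      · subst ha
        exact ih p v [] (by rw [List.append_nil] at h1 ⊢; exact h1.symm) hp hv
      · obtain ⟨a'', ha''⟩ := suf_end (x := P u b k) (c := a') (y := p ++ v) (b := b) h1.symm ha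
        subst ha''
        -- u k ++ [b] = a'' ++ [b] ++ s
        have hs : s = [] := by
          by_contra hs
          obtain ⟨s', hs'⟩ := suf_end (x := a'' ++ [b]) (c := s) (y := u k) (b := b) h2.symm hs
          subst hs'
          have h3 : u k ++ [b] = (a'' ++ [b] ++ s') ++ [b] := by
            rw [h2]; simp [List.append_assoc]
          have h4 := (List.append_inj' h3 rfl).1
          exact hub k (by rw [h4]; simp)
        subst hs
        rw [List.append_nil] at h2
        have h4 : u k = a'' := (List.append_inj' h2 rfl).1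
        subst h4
        have h5 : p ++ v = P u b k ++ u k := by
          have : (p ++ v) ++ [b] = (P u b k ++ u k) ++ [b] := by rw [h1, List.append_assoc]
          exact (List.append_inj' this rfl).1
        rcases List.append_eq_append_iff.mp h5 with ⟨c, h6, h7⟩ | ⟨c, h6, h7⟩
        · -- P k = p ++ c, v = c ++ u k
          by_cases hc : c = []
          · subst hc
            rw [List.append_nil] at h6
            rw [List.nil_append] at h7
            rw [h7, ← h6, P_count hub]
            exact hR k
          · exfalso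
            rcases P_end u b k with h8 | ⟨p', h8⟩
            · rw [h8] at h6
              have := (List.append_eq_nil_iff.mp h6.symm).2
              exact hc this
            · obtain ⟨c', hc'⟩ := suf_end (x := p) (c := c) (y := p') (b := b) (h6.symm.trans h8) hc
              exact hvb (by rw [h7, hc']; simp)
        · -- p = P k ++ c, u k = c ++ v
          by_cases hc : c = []
          · subst hc
            rw [List.append_nil] at h6
            rw [List.nil_append] at h7
            rw [← h7, h6, P_count hub]
            exact hR k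
          · exfalso
            rcases hp with h8 | ⟨p', h8⟩
            · rw [h8] at h6
              have := (List.append_eq_nil_iff.mp h6.symm).2
              exact hc this
            · obtain ⟨c', hc'⟩ := suf_end (x := P u b k) (c := c) (y := p') (b := b) (h6.symm.trans h8) hc
              exact hub k (by rw [h7, hc']; simp)
    · exact ih p v c' h1 hp hv

theorem eval_rep {σ : Type} (M : DFA ℕ σ) (s : σ) (Q : List ℕ) (h : M.evalFrom s Q = s) (m : ℕ) :
    M.evalFrom s (List.replicate m Q).flatten = s := by
  induction m with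
  | zero => rfl
  | succ m ih =>
    rw [List.replicate_succ, List.flatten_cons, M.evalFrom_of_append, h, ih]

theorem count_rep (b : ℕ) (Q : List ℕ) (m : ℕ) :
    (List.replicate m Q).flatten.count b = m * Q.count b := by
  induction m with
  | zero => simp
  | succ m ih =>
    rw [List.replicate_succ, List.flatten_cons, List.count_append, ih]
    ring

theorem rep_end (b : ℕ) (Q Q' : List ℕ) (hQ : Q = Q' ++ [b]) (m : ℕ) :
    (List.replicate m Q).flatten = [] ∨ ∃ q, (List.replicate m Q).flatten = q ++ [b] := by
  cases m with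
  | zero => exact Or.inl rfl
  | succ m =>
    right
    rw [List.replicate_succ', List.flatten_append]
    refine ⟨(List.replicate m Q).flatten ++ Q', ?_⟩
    simp [hQ]

theorem rep_ov (Δ : Finset ℕ) (Q : List ℕ) (hQ : Ov Δ Q) (m : ℕ) :
    Ov Δ (List.replicate m Q).flatten := by
  intro a ha
  rw [List.mem_flatten] at ha
  obtain ⟨l, hl, hal⟩ := ha
  rw [(List.mem_replicate.mp hl).2] at hal
  exact hQ a hal

theorem split {u : ℕ → List ℕ} {b : ℕ} (i d : ℕ) : ∃ Q, P u b (i + d) = P u b i ++ Q := by
  induction d with
  | zero => exact ⟨[], by simp⟩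
  | succ d ih =>
    obtain ⟨Q, hQ⟩ := ih
    refine ⟨Q ++ (u (i + d) ++ [b]), ?_⟩
    rw [← List.append_assoc, ← hQ]
    rfl

end NonRegAux

open NonRegAux

theorem br_nonreg {Γ : Finset ℕ} {b : ℕ} {R : ℕ → Language ℕ} (H : Hyp Γ b R) :
    ¬ (BR Γ b R).IsRegular := by
  rintro ⟨σ, _, M, hM⟩
  choose u hu using H.ne
  have hov : ∀ j, Ov Γ (u j) := fun j => H.ov j _ (hu j)
  have hub : ∀ j, b ∉ u j := fun j hj => H.nb (hov j b hj)
  have nonmem : ∀ k, P u b k ∉ BR Γ b R := by
    rintro k ⟨p, v, s, hp, _, hv, _, hnot, hw⟩
    exact hnot (key H.nb hov hu k p v s hw hp hv)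
  obtain ⟨i0, j0, hne, heq⟩ := Finite.exists_ne_map_eq_of_infinite (fun k : ℕ => M.eval (P u b k))
  have hex : ∃ i d : ℕ, 0 < d ∧ M.eval (P u b i) = M.eval (P u b (i + d)) := by
    rcases lt_or_gt_of_ne hne with h | h
    · exact ⟨i0, j0 - i0, by omega, by rw [show i0 + (j0 - i0) = j0 by omega]; exact heq⟩
    · exact ⟨j0, i0 - j0, by omega, by rw [show j0 + (i0 - j0) = i0 by omega]; exact heq.symm⟩
  obtain ⟨i, d, hd, he⟩ := hex
  obtain ⟨Q, hQ⟩ := split (u := u) (b := b) i d
  have hQc : Q.count b = d := by
    have h1 := P_count hub (i + d)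
    rw [hQ, List.count_append, P_count hub i] at h1
    omega
  have hQne : Q ≠ [] := by
    intro h0
    rw [h0] at hQc
    simp at hQc
    omega
  have hQend : ∃ Q', Q = Q' ++ [b] := by
    rcases P_end u b (i + d) with h8 | ⟨p', h8⟩
    · rw [h8] at hQ
      exact absurd (List.append_eq_nil_iff.mp hQ.symm).2 hQne
    · exact suf_end (x := P u b i) (c := Q) (y := p') (b := b) (hQ.symm.trans h8) hQne
  obtain ⟨Q', hQ'⟩ := hQend
  have hQov : Ov (insert b Γ) Q := by
    intro a ha
    refine P_ov (b := b) hov (i + d) a ?_
    rw [hQ]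
    exact List.mem_append_right _ ha
  have hloop : M.evalFrom (M.eval (P u b i)) Q = M.eval (P u b i) := by
    rw [he, hQ]
    conv_lhs => rw [← hQ, ← he]
    exact (M.evalFrom_of_append M.start (P u b i) Q).symm
  have hall : ∀ m : ℕ, u (i + d) ∈ R (i + m * d) := by
    intro m
    by_contra hnot
    set p : List ℕ := P u b i ++ (List.replicate m Q).flatten with hp
    have hmem : p ++ u (i + d) ++ [b] ++ [] ∈ BR Γ b R := by
      refine ⟨p, u (i + d), [], ?_, ?_, hov _, ?_, ?_, rfl⟩
      · rcases rep_end b Q Q' hQ' m with h1 | ⟨q, h1⟩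
        · rw [hp, h1, List.append_nil]
          exact P_end u b i
        · right
          exact ⟨P u b i ++ q, by rw [hp, h1, List.append_assoc]⟩
      · intro a ha
        rw [hp] at ha
        rcases List.mem_append.mp ha with h1 | h1
        · exact P_ov hov i a h1
        · exact rep_ov _ Q hQov m a h1
      · intro a ha; simp at ha
      · rw [hp, List.count_append, P_count hub, count_rep, hQc]
        exact hnot
    apply nonmem (i + d + 1)
    rw [← hM] at hmem ⊢
    rw [DFA.mem_accepts] at hmem ⊢
    have e1 : M.eval (p ++ u (i + d) ++ [b] ++ []) = M.eval (P u b (i + d + 1)) := by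
      rw [List.append_nil, List.append_assoc]
      show M.evalFrom M.start (p ++ (u (i + d) ++ [b])) =
        M.evalFrom M.start (P u b (i + d) ++ (u (i + d) ++ [b]))
      have e0 : M.evalFrom M.start p = M.evalFrom M.start (P u b (i + d)) := by
        rw [hp, M.evalFrom_of_append]
        show M.evalFrom (M.eval (P u b i)) _ = M.eval (P u b (i + d))
        rw [eval_rep M _ Q hloop m, he]
      rw [M.evalFrom_of_append, M.evalFrom_of_append M.start (P u b (i + d)), e0]
    rw [← e1]
    exact hmem
  refine Set.infinite_of_injective_forall_mem (f := fun m : ℕ => i + m * d) ?_ hall (H.fin (u (i + d)))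
  intro m m' h
  have h' : i + m * d = i + m' * d := h
  exact Nat.eq_of_mul_eq_mul_right hd (by omega)

end Pool.Agent.Lib.F1c4
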