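import Pool.Agent.Lib.F1c4.Path

/-!
# Module F1c4.Rev: reversal of minimal cones (MP_f1c4ef_lc)

PROOF. `rv F` is the family of the languages `L` with `rl L ∈ F`, where `rl L` is the reversed language.
`rl (rl L) = L`, `rv (rv F) = F`. `Rat (rl L) ↔ Rat L`: `Language.IsRegular.reverse` (`rl L` is
`Language.reverse L`: `Language.reverse` is defined as the set of the `w` with `w.reverse ∈ L`, check with
`Language.mem_reverse`). `IsCone (rv F)`: `(v.flatMap h).reverse = v.reverse.flatMap (fun a => (h a).reverse)`
(`List.reverse_flatMap` or induction); so the image under `h` of `L` reversed is the image of the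
reversed language under `fun a => (h a).reverse`, similarly for inverse images and intersections with
rational languages. `IsMinimal (rv F)`: the family of the rational languages is invariant under `rv`, and
`M ⊂ rv F ↔ rv M ⊂ F`.
-/

set_option autoImplicit false

namespace Pool.Agent.Lib.F1c4

/-- the reversed language -/
def rl (L : Language ℕ) : Language ℕ := {w : List ℕ | w.reverse ∈ L}

/-- the family of the languages whose reversal is in `F` -/
def rv (F : Set (Language ℕ)) : Set (Language ℕ) := {L | rl L ∈ F}

theorem rl_rl (L : Language ℕ) : rl (rl L) = L := by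
  ext w
  change w.reverse.reverse ∈ L ↔ w ∈ L
  rw [List.reverse_reverse]

namespace RevAux

theorem rat_rl {L : Language ℕ} (h : Rat L) : Rat (rl L) := by
  obtain ⟨h1, S, hS⟩ := h
  refine ⟨?_, S, fun w hw a ha => hS w.reverse hw a (List.mem_reverse.2 ha)⟩
  have : rl L = L.reverse := rfl
  rw [this]
  exact h1.reverse

theorem flat_rev (v : List ℕ) (h : ℕ → List ℕ) :
    (v.flatMap h).reverse = v.reverse.flatMap (fun a => (h a).reverse) := by
  induction v with
  | nil => rfl
  | cons a v ih =>
    rw [List.flatMap_cons, List.reverse_append, ih, List.reverse_cons, List.flatMap_append]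
    simp

theorem flat_rev' (v : List ℕ) (h : ℕ → List ℕ) :
    (v.flatMap (fun a => (h a).reverse)).reverse = v.reverse.flatMap h := by
  rw [flat_rev]
  simp

theorem rv_cone {F : Set (Language ℕ)} (hF : IsCone F) : IsCone (rv F) where
  alph := by
    intro L hL
    obtain ⟨S, hS⟩ := hF.alph _ hL
    refine ⟨S, fun w hw a ha => hS w.reverse ?_ a (List.mem_reverse.2 ha)⟩
    change w.reverse.reverse ∈ L
    rw [List.reverse_reverse]
    exact hw
  nonempty := by
    obtain ⟨L, hL, w, hw⟩ := hF.nonempty
    refine ⟨rl L, ?_, w.reverse, ?_⟩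
    · change rl (rl L) ∈ F
      rw [rl_rl]
      exact hL
    · change w.reverse.reverse ∈ L
      rw [List.reverse_reverse]
      exact hw
  hom := by
    intro L hL h
    change rl _ ∈ F
    have h1 := hF.hom _ hL (fun a => (h a).reverse)
    refine Set.mem_of_eq_of_mem ?_ h1
    refine Set.ext fun w => ?_
    constructor
    · rintro ⟨v, hv, hw⟩
      refine ⟨v.reverse, ?_, ?_⟩
      · change v.reverse.reverse ∈ L
        rw [List.reverse_reverse]
        exact hv
      · rw [← flat_rev, ← hw, List.reverse_reverse]
    · rintro ⟨v, hv, hw⟩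
      refine ⟨v.reverse, hv, ?_⟩
      rw [hw]
      exact flat_rev' v h
  inv := by
    intro L hL h S
    change rl _ ∈ F
    have h1 := hF.inv _ hL (fun a => (h a).reverse) S
    refine Set.mem_of_eq_of_mem ?_ h1
    refine Set.ext fun w => ?_
    constructor
    · rintro ⟨hv, hw⟩
      refine ⟨fun a ha => hv a (List.mem_reverse.2 ha), ?_⟩
      change (w.flatMap (fun a => (h a).reverse)).reverse ∈ L
      rw [flat_rev']
      exact hw
    · rintro ⟨hv, hw⟩
      refine ⟨fun a ha => hv a (List.mem_reverse.1 ha), ?_⟩
      change (w.flatMap (fun a => (h a).reverse)).reverse ∈ L at hw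
      rw [flat_rev'] at hw
      exact hw
  inter := by
    intro L hL R hR
    exact hF.inter _ hL _ (rat_rl hR)

end RevAux

theorem rv_minimal {F : Set (Language ℕ)} (hF : IsMinimal F) : IsMinimal (rv F) := by
  obtain ⟨h1, h2, h3⟩ := hF
  refine ⟨RevAux.rv_cone h1, ⟨fun L hL => h2.1 (RevAux.rat_rl hL), fun h => h2.2 fun L hL => ?_⟩, ?_⟩
  · have hL' : rl L ∈ rv F := by
      change rl (rl L) ∈ F
      rw [rl_rl]
      exact hL
    have h4 := RevAux.rat_rl (h hL')
    rw [rl_rl] at h4
    exact h4
  · intro M hM hM1 hM2
    refine h3 (rv M) (RevAux.rv_cone hM) ⟨fun L hL => hM1.1 (RevAux.rat_rl hL), fun h => hM1.2 fun L hL => ?_⟩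
      ⟨fun L hL => ?_, fun h => hM2.2 fun L hL => ?_⟩
    · have hL' : rl L ∈ rv M := by
        change rl (rl L) ∈ M
        rw [rl_rl]
        exact hL
      have h4 := RevAux.rat_rl (h hL')
      rw [rl_rl] at h4
      exact h4
    · have h4 := hM2.1 hL
      change rl (rl L) ∈ F at h4
      rw [rl_rl] at h4
      exact h4
    · have h4 := h hL
      change rl (rl L) ∈ M at h4
      rw [rl_rl] at h4
      exact h4

end Pool.Agent.Lib.F1c4
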