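import Pool.Agent.Lib.F1c4.Path

/-!
# Module F1c4.TCone: images under finite transducers, the easy closure properties (MP_f1c4ef_lc)

PROOFS.
`tc_alph`: `S` = the union over the (finitely many) edges of the sets of letters of `out e`.
`tc_hom`: the transducer with `out' e = (out e).flatMap h` (`List.flatMap_assoc` or induction).
`tc_inter`: let `M` (states `τ`, a `Fintype`) be an automaton of `R`. Transducer with states `σ × τ`, edges
`E × τ`, `src (e, t) = (src e, t)`, `tgt (e, t) = (tgt e, M.evalFrom t (out e))`, `inp (e, t) = inp e`,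
`out (e, t) = out e`, initial states `p ∈ ini` with `t = M.start`, final states `q ∈ fin` with
`t ∈ M.accept`. Lemmas (induction on the path): a path `es` from `p` to `q` lifts to a path `es2` from
`(p, t)` to `(q, M.evalFrom t (es.flatMap out))` with `es2.map Prod.fst = es`, and a path `es2` from
`(p, t)` to `(q, t')` projects to the path `es2.map Prod.fst` from `p` to `q`, with
`t' = M.evalFrom t ((es2.map Prod.fst).flatMap out)` (`DFA.evalFrom_of_append`).
`tc_self`: one state, edges `{a // a ∈ S}`, `inp a = out a = [a]`: for a word `w` over `S` the path is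
`w.attach`-like (lift of `w` to the subtype: `List.attachWith` or `List.pmap`), and conversely
`es.flatMap inp = es.map Subtype.val = es.flatMap out`.
-/

set_option autoImplicit false

namespace Pool.Agent.Lib.F1c4

namespace TConeAux

/-- the transducer which outputs the images under `h` -/
def hom (T : FT) (h : ℕ → List ℕ) : FT :=
  { T with out := fun e => (T.out e).flatMap h }

/-- the product of a transducer with an automaton that reads the output -/
def prd (T : FT) {τ : Type} [Finite τ] (M : DFA ℕ τ) : FT where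
  σ := T.σ × τ
  E := T.E × τ
  fσ := by
    have := T.fσ
    infer_instance
  fE := by
    have := T.fE
    infer_instance
  src := fun e => (T.src e.1, e.2)
  tgt := fun e => (T.tgt e.1, M.evalFrom e.2 (T.out e.1))
  inp := fun e => T.inp e.1
  out := fun e => T.out e.1
  ini := {x | x.1 ∈ T.ini ∧ x.2 = M.start}
  fin := {x | x.1 ∈ T.fin ∧ x.2 ∈ M.accept}

theorem lift (T : FT) {τ : Type} [Finite τ] (M : DFA ℕ τ) (es : List T.E) :
    ∀ (p q : T.σ) (t : τ), IsPath T.src T.tgt p es q →
      ∃ es2 : List (T.E × τ), es2.map Prod.fst = es ∧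
        IsPath (prd T M).src (prd T M).tgt (p, t) es2 (q, M.evalFrom t (es.flatMap T.out)) := by
  induction es with
  | nil =>
    intro p q t h
    have h1 : p = q := h
    refine ⟨[], rfl, ?_⟩
    show (p, t) = (q, M.evalFrom t [])
    rw [h1]
    rfl
  | cons e es ih =>
    intro p q t h
    obtain ⟨h1, h2⟩ := (show T.src e = p ∧ IsPath T.src T.tgt (T.tgt e) es q from h)
    obtain ⟨es2, h3, h4⟩ := ih (T.tgt e) q (M.evalFrom t (T.out e)) h2
    refine ⟨(e, t) :: es2, by rw [List.map_cons, h3], ?_⟩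
    refine ⟨?_, ?_⟩
    · show (T.src e, t) = (p, t)
      rw [h1]
    · rw [List.flatMap_cons, DFA.evalFrom_of_append]
      exact h4

theorem proj (T : FT) {τ : Type} [Finite τ] (M : DFA ℕ τ) (es2 : List (T.E × τ)) :
    ∀ (x y : T.σ × τ), IsPath (prd T M).src (prd T M).tgt x es2 y →
      IsPath T.src T.tgt x.1 (es2.map Prod.fst) y.1 ∧
        y.2 = M.evalFrom x.2 ((es2.map Prod.fst).flatMap T.out) := by
  induction es2 with
  | nil =>
    intro x y h
    have h1 : x = y := h
    rw [h1]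
    exact ⟨rfl, rfl⟩
  | cons e es ih =>
    intro x y h
    obtain ⟨h1, h2⟩ := (show (T.src e.1, e.2) = x ∧ IsPath (prd T M).src (prd T M).tgt
      (T.tgt e.1, M.evalFrom e.2 (T.out e.1)) es y from h)
    obtain ⟨h3, h4⟩ := ih _ _ h2
    subst h1
    refine ⟨⟨rfl, h3⟩, ?_⟩
    rw [h4, List.map_cons, List.flatMap_cons, DFA.evalFrom_of_append]

theorem flatMap_fst {T : FT} {τ : Type} (f : T.E → List ℕ) (es : List (T.E × τ)) :
    es.flatMap (fun e => f e.1) = (es.map Prod.fst).flatMap f := by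
  rw [List.flatMap_map]

/-- the transducer which copies the words over `S` -/
def cpy (S : Finset ℕ) : FT where
  σ := Unit
  E := {a : ℕ // a ∈ S}
  fσ := inferInstance
  fE := inferInstance
  src := fun _ => ()
  tgt := fun _ => ()
  inp := fun e => [e.1]
  out := fun e => [e.1]
  ini := Set.univ
  fin := Set.univ

theorem cpy_path (S : Finset ℕ) (es : List {a : ℕ // a ∈ S}) :
    IsPath (cpy S).src (cpy S).tgt () es () := by
  induction es with
  | nil => rfl
  | cons e es ih => exact ⟨rfl, ih⟩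

end TConeAux

theorem tc_alph {B : Language ℕ} : ∀ L ∈ TC B, ∃ S : Finset ℕ, ∀ w ∈ L, ∀ a ∈ w, a ∈ S := by
  classical
  rintro L ⟨T, rfl⟩
  have := T.fE
  have := Fintype.ofFinite T.E
  refine ⟨Finset.univ.biUnion (fun e => (T.out e).toFinset), ?_⟩
  rintro w ⟨p, hp, q, hq, es, h1, h2, rfl⟩ a ha
  obtain ⟨e, he, hae⟩ := List.mem_flatMap.1 ha
  exact Finset.mem_biUnion.2 ⟨e, Finset.mem_univ _, List.mem_toFinset.2 hae⟩

theorem tc_hom {B : Language ℕ} : ∀ L ∈ TC B, ∀ h : ℕ → List ℕ,
    ({w : List ℕ | ∃ v ∈ L, w = v.flatMap h} : Language ℕ) ∈ TC B := by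
  rintro L ⟨T, rfl⟩ h
  refine ⟨TConeAux.hom T h, ?_⟩
  ext w
  constructor
  · rintro ⟨v, ⟨p, hp, q, hq, es, h1, h2, rfl⟩, rfl⟩
    refine ⟨p, hp, q, hq, es, h1, h2, ?_⟩
    exact List.flatMap_assoc.symm
  · rintro ⟨p, hp, q, hq, es, h1, h2, rfl⟩
    refine ⟨es.flatMap T.out, ⟨p, hp, q, hq, es, h1, h2, rfl⟩, ?_⟩
    exact List.flatMap_assoc.symm

theorem tc_inter {B : Language ℕ} : ∀ L ∈ TC B, ∀ R : Language ℕ, Rat R →
    ({w : List ℕ | w ∈ L ∧ w ∈ R} : Language ℕ) ∈ TC B := by
  rintro L ⟨T, rfl⟩ R ⟨⟨τ, hτ, M, rfl⟩, -⟩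
  refine ⟨TConeAux.prd T M, ?_⟩
  ext w
  constructor
  · rintro ⟨⟨p, hp, q, hq, es, h1, h2, rfl⟩, h3⟩
    obtain ⟨es2, h4, h5⟩ := TConeAux.lift T M es p q M.start h1
    refine ⟨(p, M.start), ⟨hp, rfl⟩, (q, M.evalFrom M.start (es.flatMap T.out)), ⟨hq, h3⟩,
      es2, h5, ?_, ?_⟩
    · rw [← h4, ← TConeAux.flatMap_fst] at h2
      exact h2
    · rw [← h4, ← TConeAux.flatMap_fst]
      rfl
  · rintro ⟨x, ⟨hx1, hx2⟩, y, ⟨hy1, hy2⟩, es2, h1, h2, rfl⟩
    obtain ⟨h3, h4⟩ := TConeAux.proj T M es2 x y h1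
    have h5 : es2.flatMap (TConeAux.prd T M).out = (es2.map Prod.fst).flatMap T.out :=
      TConeAux.flatMap_fst T.out es2
    have h6 : es2.flatMap (TConeAux.prd T M).inp = (es2.map Prod.fst).flatMap T.inp :=
      TConeAux.flatMap_fst T.inp es2
    refine ⟨⟨x.1, hx1, y.1, hy1, es2.map Prod.fst, h3, ?_, h5.symm⟩, ?_⟩
    · rw [← h6]
      exact h2
    · rw [h5]
      show M.evalFrom M.start ((es2.map Prod.fst).flatMap T.out) ∈ M.accept
      rw [← hx2, ← h4]
      exact hy2

theorem tc_self {B : Language ℕ} (hB : ∃ S : Finset ℕ, ∀ w ∈ B, ∀ a ∈ w, a ∈ S) : B ∈ TC B := by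
  obtain ⟨S, hS⟩ := hB
  refine ⟨TConeAux.cpy S, ?_⟩
  have key : ∀ es : List {a : ℕ // a ∈ S}, es.flatMap (fun e => [e.1]) = es.map Subtype.val := by
    intro es
    induction es with
    | nil => rfl
    | cons e es ih =>
      rw [List.flatMap_cons, ih]
      rfl
  ext w
  constructor
  · intro hw
    have h1 : (w.attachWith (fun a => a ∈ S) (hS w hw)).map Subtype.val = w :=
      List.attachWith_map_subtype_val _
    refine ⟨(), trivial, (), trivial, w.attachWith (fun a => a ∈ S) (hS w hw),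
      TConeAux.cpy_path S _, ?_, ?_⟩
    · have h2 := key (w.attachWith (fun a => a ∈ S) (hS w hw))
      rw [h1] at h2
      show (w.attachWith (fun a => a ∈ S) (hS w hw)).flatMap (fun e => [e.1]) ∈ B
      rw [h2]
      exact hw
    · have h2 := key (w.attachWith (fun a => a ∈ S) (hS w hw))
      rw [h1] at h2
      exact h2
  · rintro ⟨p, -, q, -, es, -, h2, rfl⟩
    exact h2

end Pool.Agent.Lib.F1c4
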