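import Pool.Agent.Lib.F1c4.Path

/-!
# Module F1c4.TInv: images under finite transducers, inverse morphisms (MP_f1c4ef_lc)

PROOF of `tc_inv`. Let `T` be a transducer with `L = T.img B`. New transducer `T'`, which guesses `w` over
`S` and checks that `w.flatMap h` is written by `T`; the states are triples `(q, γ, β)` with `q` a state of `T`,
`γ` a suffix of some `out e` or `[]` (written by `T`, not yet used), `β` a suffix of some `h a`, `a ∈ S`, or
`[]` (still to be written by `T`). So `γ ∈ G`, `β ∈ H` for two finite sets of words closed under taking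
tails (as finsets: `insert [] (Finset.univ.biUnion fun e => (out e).tails.toFinset)`, with
`Fintype.ofFinite`, and `insert [] (S.biUnion fun a => (h a).tails.toFinset)`; the states are
`σ × {γ // γ ∈ G} × {β // β ∈ H}`). Edges (an inductive or sum type):
(i) for `a ∈ S`, `q`, `γ`: from `(q, γ, [])` to `(q, γ, h a)`, reads `[]`, writes `[a]`;
(ii) for an edge `e` of `T` and `β`: from `(src e, [], β)` to `(tgt e, out e, β)`, reads `inp e`, writes `[]`;
(iii) for `c`, `q`, `γ`, `β` with `c :: γ ∈ G`, `c :: β ∈ H`: from `(q, c :: γ, c :: β)` to `(q, γ, β)`, reads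
and writes `[]` (index these edges by `q`, the element `γ' ∈ G` and the element `β' ∈ H`, both nonempty with
the same first letter; or by all triples, with a harmless loop if the condition fails).
Initial `(p, [], [])`, `p ∈ ini`, final `(q, [], [])`, `q ∈ fin`.
SOUND: for every path of `T'` from `(q, γ, β)` to `(q', γ', β')` there is a path `es` of `T` from `q` to `q'`
with the same `inp`, and `γ ++ es.flatMap out ++ (nothing)` `= β ++ w.flatMap h` up to the rests:
`β' ++ ... `; precisely `γ ++ es.flatMap out ++ β' = β ++ w.flatMap h ++ γ'`, where `w` (over `S`) is the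
word written by the path of `T'` (induction on the path).
COMPLETE: for every path `es` of `T` from `q` to `q'`, every `w` over `S` and `γ ∈ G`, `β ∈ H` with
`γ ++ es.flatMap out = β ++ w.flatMap h` there is a path of `T'` from `(q, γ, β)` to `(q', [], [])` which
reads `es.flatMap inp` and writes `w`. Induction on `γ.length + β.length + (lengths of the rests)`, for
example on `w.length + es.length + (γ.length + β.length + ...)`: if `β = []` and `w = a :: w'` use an edge
(i) (measure: first `w.length + es.length`, then `γ.length`); if `β = []` and `w = []` then `γ = []` and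
`es.flatMap out = []`: use edges (ii) for `es` (`out e = []`); if `β = c :: β1` and `γ = c' :: γ1` then `c = c'`: edge
(iii); if `β = c :: β1` and `γ = []` then `es` is not empty: edge (ii).
-/

set_option autoImplicit false

namespace Pool.Agent.Lib.F1c4

namespace TInvAux

/-- the suffixes of the words in `A`, and the empty word -/
def sfx (A : Finset (List ℕ)) : Finset (List ℕ) := insert [] (A.biUnion fun l => l.tails.toFinset)

theorem nil_sfx (A : Finset (List ℕ)) : [] ∈ sfx A := Finset.mem_insert_self _ _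

theorem mem_sfx {A : Finset (List ℕ)} {l : List ℕ} (h : l ∈ A) : l ∈ sfx A := by
  refine Finset.mem_insert_of_mem (Finset.mem_biUnion.2 ⟨l, h, ?_⟩)
  rw [List.mem_toFinset, List.mem_tails]

theorem tail_sfx {A : Finset (List ℕ)} {l : List ℕ} (h : l ∈ sfx A) : l.tail ∈ sfx A := by
  rcases Finset.mem_insert.1 h with h | h
  · rw [h]
    exact nil_sfx A
  · obtain ⟨v, hv, h1⟩ := Finset.mem_biUnion.1 h
    rw [List.mem_toFinset, List.mem_tails] at h1
    refine Finset.mem_insert_of_mem (Finset.mem_biUnion.2 ⟨v, hv, ?_⟩)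
    rw [List.mem_toFinset, List.mem_tails]
    exact (List.tail_suffix l).trans h1

/-- the outputs -/
noncomputable def AG (T : FT) : Finset (List ℕ) :=
  haveI := T.fE
  (Set.finite_range T.out).toFinset

theorem out_AG (T : FT) (e : T.E) : T.out e ∈ sfx (AG T) := by
  refine mem_sfx ?_
  unfold AG
  rw [Set.Finite.mem_toFinset]
  exact ⟨e, rfl⟩

theorem h_AH (h : ℕ → List ℕ) (S : Finset ℕ) (a : ℕ) (ha : a ∈ S) : h a ∈ sfx (S.image h) :=
  mem_sfx (Finset.mem_image_of_mem h ha)

/-- states -/
abbrev St (T : FT) (h : ℕ → List ℕ) (S : Finset ℕ) : Type :=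
  T.σ × {γ // γ ∈ sfx (AG T)} × {β // β ∈ sfx (S.image h)}

/-- edges -/
abbrev Ed (T : FT) (h : ℕ → List ℕ) (S : Finset ℕ) : Type :=
  ({a // a ∈ S} × T.σ × {γ // γ ∈ sfx (AG T)}) ⊕
    ((T.E × {β // β ∈ sfx (S.image h)}) ⊕ St T h S)

variable (T : FT) (h : ℕ → List ℕ) (S : Finset ℕ)

def src' : Ed T h S → St T h S
  | Sum.inl x => (x.2.1, x.2.2, ⟨[], nil_sfx _⟩)
  | Sum.inr (Sum.inl x) => (T.src x.1, ⟨[], nil_sfx _⟩, x.2)
  | Sum.inr (Sum.inr x) => x

open Classical in
noncomputable def tgt' : Ed T h S → St T h S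
  | Sum.inl x => (x.2.1, x.2.2, ⟨h x.1, h_AH h S x.1 x.1.2⟩)
  | Sum.inr (Sum.inl x) => (T.tgt x.1, ⟨T.out x.1, out_AG T x.1⟩, x.2)
  | Sum.inr (Sum.inr x) =>
      if ∃ c γ β, x.2.1.1 = c :: γ ∧ x.2.2.1 = c :: β then
        (x.1, ⟨x.2.1.1.tail, tail_sfx x.2.1.2⟩, ⟨x.2.2.1.tail, tail_sfx x.2.2.2⟩)
      else x

def inp' : Ed T h S → List ℕ
  | Sum.inl _ => []
  | Sum.inr (Sum.inl x) => T.inp x.1
  | Sum.inr (Sum.inr _) => []

def out' : Ed T h S → List ℕ
  | Sum.inl x => [x.1.1]
  | Sum.inr _ => []

/-- the transducer -/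
noncomputable def TT : FT where
  σ := St T h S
  E := Ed T h S
  fσ := by
    have := T.fσ
    infer_instance
  fE := by
    have := T.fσ
    have := T.fE
    infer_instance
  src := src' T h S
  tgt := tgt' T h S
  inp := inp' T h S
  out := out' T h S
  ini := {x | x.1 ∈ T.ini ∧ x.2.1.1 = [] ∧ x.2.2.1 = []}
  fin := {x | x.1 ∈ T.fin ∧ x.2.1.1 = [] ∧ x.2.2.1 = []}

theorem sound : ∀ (ps : List (Ed T h S)) (x y : St T h S),
    IsPath (src' T h S) (tgt' T h S) x ps y →
    ∃ (es : List T.E) (m : List ℕ), IsPath T.src T.tgt x.1 es y.1 ∧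
      es.flatMap T.inp = ps.flatMap (inp' T h S) ∧
      x.2.1.1 ++ es.flatMap T.out = m ++ y.2.1.1 ∧
      x.2.2.1 ++ (ps.flatMap (out' T h S)).flatMap h = m ++ y.2.2.1 ∧
      ∀ a ∈ ps.flatMap (out' T h S), a ∈ S
  | [], x, y, hp => by
      have hxy : x = y := hp
      subst hxy
      exact ⟨[], [], rfl, rfl, by simp, by simp, by simp⟩
  | e :: ps, x, y, hp => by
      obtain ⟨h1, h2⟩ := hp
      obtain ⟨es, m, a1, a2, a3, a4, a5⟩ := sound ps _ _ h2
      rcases e with e | e | e
      · refine ⟨es, m, ?_, ?_, ?_, ?_, ?_⟩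
        · rw [← h1]
          exact a1
        · rw [List.flatMap_cons, ← a2]
          rfl
        · rw [← h1]
          exact a3
        · rw [← h1, ← a4, List.flatMap_cons, List.flatMap_append]
          show [] ++ (List.flatMap h [e.1.1] ++ _) = h e.1.1 ++ _
          simp
        · intro a ha
          rw [List.flatMap_cons, List.mem_append] at ha
          rcases ha with ha | ha
          · have ha' : a ∈ [e.1.1] := ha
            rw [List.mem_singleton] at ha'
            rw [ha']
            exact e.1.2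
          · exact a5 a ha
      · refine ⟨e.1 :: es, m, ?_, ?_, ?_, ?_, ?_⟩
        · rw [← h1]
          exact ⟨rfl, a1⟩
        · rw [List.flatMap_cons, List.flatMap_cons, ← a2]
          rfl
        · rw [← h1, ← a3, List.flatMap_cons]
          rfl
        · rw [← h1, ← a4, List.flatMap_cons]
          rfl
        · intro a ha
          rw [List.flatMap_cons, List.mem_append] at ha
          rcases ha with ha | ha
          · have ha' : a ∈ ([] : List ℕ) := ha
            simp at ha'
          · exact a5 a ha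
      · have hx : e = x := h1
        subst hx
        by_cases hc : ∃ c γ β, e.2.1.1 = c :: γ ∧ e.2.2.1 = c :: β
        · have ht : tgt' T h S (Sum.inr (Sum.inr e)) =
              (e.1, ⟨e.2.1.1.tail, tail_sfx e.2.1.2⟩, ⟨e.2.2.1.tail, tail_sfx e.2.2.2⟩) := by
            unfold tgt'
            exact if_pos hc
          rw [ht] at a1 a3 a4
          obtain ⟨c, γ, β, e1, e2⟩ := hc
          refine ⟨es, c :: m, a1, ?_, ?_, ?_, ?_⟩
          · rw [List.flatMap_cons, ← a2]
            rfl
          · have a3' : e.2.1.1.tail ++ es.flatMap T.out = m ++ y.2.1.1 := a3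
            rw [e1, List.tail_cons] at a3'
            rw [e1, List.cons_append, List.cons_append, a3']
          · have a4' : e.2.2.1.tail ++ (ps.flatMap (out' T h S)).flatMap h = m ++ y.2.2.1 := a4
            rw [e2, List.tail_cons] at a4'
            rw [e2, List.flatMap_cons, List.cons_append, List.cons_append, ← a4']
            rfl
          · intro a ha
            rw [List.flatMap_cons, List.mem_append] at ha
            rcases ha with ha | ha
            · have ha' : a ∈ ([] : List ℕ) := ha
              simp at ha'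
            · exact a5 a ha
        · have ht : tgt' T h S (Sum.inr (Sum.inr e)) = e := by
            unfold tgt'
            exact if_neg hc
          rw [ht] at a1 a3 a4
          refine ⟨es, m, a1, ?_, a3, ?_, ?_⟩
          · rw [List.flatMap_cons, ← a2]
            rfl
          · rw [← a4, List.flatMap_cons]
            rfl
          · intro a ha
            rw [List.flatMap_cons, List.mem_append] at ha
            rcases ha with ha | ha
            · have ha' : a ∈ ([] : List ℕ) := ha
              simp at ha'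
            · exact a5 a ha

theorem complete (q' : T.σ) : ∀ (n : ℕ) (q : T.σ) (es : List T.E) (w γ β : List ℕ)
    (hγ : γ ∈ sfx (AG T)) (hβ : β ∈ sfx (S.image h)),
    w.length + es.length + γ.length + (es.flatMap T.out).length + β.length +
      (w.flatMap h).length ≤ n →
    IsPath T.src T.tgt q es q' → (∀ a ∈ w, a ∈ S) → γ ++ es.flatMap T.out = β ++ w.flatMap h →
    ∃ ps : List (Ed T h S), IsPath (src' T h S) (tgt' T h S) (q, ⟨γ, hγ⟩, ⟨β, hβ⟩) ps
        (q', ⟨[], nil_sfx _⟩, ⟨[], nil_sfx _⟩) ∧
      ps.flatMap (inp' T h S) = es.flatMap T.inp ∧ ps.flatMap (out' T h S) = w := by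
  intro n
  induction n using Nat.strong_induction_on with
  | _ n ih =>
      intro q es w γ β hγ hβ hn hp hw heq
      have step1 : ∀ (a : ℕ) (w' : List ℕ), w = a :: w' → β = [] →
          ∃ ps : List (Ed T h S), IsPath (src' T h S) (tgt' T h S) (q, ⟨γ, hγ⟩, ⟨β, hβ⟩) ps
            (q', ⟨[], nil_sfx _⟩, ⟨[], nil_sfx _⟩) ∧
          ps.flatMap (inp' T h S) = es.flatMap T.inp ∧ ps.flatMap (out' T h S) = w := by
        rintro a w' rfl rfl
        have ha : a ∈ S := hw a (by simp)
        rw [List.nil_append, List.flatMap_cons] at heq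
        rw [List.flatMap_cons, List.length_append] at hn
        simp only [List.length_cons, List.length_nil] at hn
        obtain ⟨ps, b1, b2, b3⟩ := ih (n - 1) (by omega) q es w' γ (h a) hγ (h_AH h S a ha)
          (by omega) hp (fun b hb => hw b (by simp [hb])) heq
        refine ⟨Sum.inl (⟨a, ha⟩, q, ⟨γ, hγ⟩) :: ps, ⟨rfl, b1⟩, ?_, ?_⟩
        · rw [List.flatMap_cons, b2]
          rfl
        · rw [List.flatMap_cons, b3]
          rfl
      rcases γ with _ | ⟨c', γ1⟩
      · rcases es with _ | ⟨e, es'⟩
        · have hq : q = q' := hp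
          subst hq
          rw [List.flatMap_nil, List.nil_append, eq_comm, List.append_eq_nil_iff] at heq
          obtain ⟨h1, h2⟩ := heq
          subst h1
          rcases w with _ | ⟨a, w'⟩
          · exact ⟨[], rfl, rfl, rfl⟩
          · exact step1 a w' rfl rfl
        · obtain ⟨h1, h2⟩ := hp
          rw [List.flatMap_cons, List.length_append] at hn
          simp only [List.length_cons, List.length_nil] at hn
          rw [List.nil_append, List.flatMap_cons] at heq
          obtain ⟨ps, b1, b2, b3⟩ := ih (n - 1) (by omega) (T.tgt e) es' w (T.out e) β (out_AG T e) hβ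
            (by omega) h2 hw heq
          refine ⟨Sum.inr (Sum.inl (e, ⟨β, hβ⟩)) :: ps, ⟨?_, b1⟩, ?_, ?_⟩
          · rw [← h1]
            rfl
          · rw [List.flatMap_cons, b2, List.flatMap_cons]
            rfl
          · rw [List.flatMap_cons, b3]
            rfl
      · rcases β with _ | ⟨c, β1⟩
        · rcases w with _ | ⟨a, w'⟩
          · simp at heq
          · exact step1 a w' rfl rfl
        · rw [List.cons_append, List.cons_append, List.cons.injEq] at heq
          obtain ⟨h1, h2⟩ := heq
          subst h1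
          simp only [List.length_cons] at hn
          obtain ⟨ps, b1, b2, b3⟩ := ih (n - 1) (by omega) q es w γ1 β1 (tail_sfx hγ) (tail_sfx hβ)
            (by omega) hp hw h2
          refine ⟨Sum.inr (Sum.inr (q, ⟨c' :: γ1, hγ⟩, ⟨c' :: β1, hβ⟩)) :: ps, ⟨rfl, ?_⟩, ?_, ?_⟩
          · have ht : tgt' T h S (Sum.inr (Sum.inr (q, ⟨c' :: γ1, hγ⟩, ⟨c' :: β1, hβ⟩))) =
                (q, ⟨γ1, tail_sfx hγ⟩, ⟨β1, tail_sfx hβ⟩) := by
              unfold tgt'
              exact if_pos ⟨c', γ1, β1, rfl, rfl⟩
            rw [ht]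
            exact b1
          · rw [List.flatMap_cons, b2]
            rfl
          · rw [List.flatMap_cons, b3]
            rfl

end TInvAux

open TInvAux

theorem tc_inv {B : Language ℕ} : ∀ L ∈ TC B, ∀ (h : ℕ → List ℕ) (S : Finset ℕ),
    ({w : List ℕ | (∀ a ∈ w, a ∈ S) ∧ w.flatMap h ∈ L} : Language ℕ) ∈ TC B := by
  rintro L ⟨T, rfl⟩ h S
  refine ⟨TT T h S, ?_⟩
  ext w
  constructor
  · rintro ⟨hw, p, hp, q, hq, es, h1, h2, h3⟩
    obtain ⟨ps, b1, b2, b3⟩ := complete T h S q _ p es w [] [] (nil_sfx _) (nil_sfx _) le_rfl h1 hw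
      (by rw [List.nil_append, List.nil_append, h3])
    exact ⟨(p, ⟨[], nil_sfx _⟩, ⟨[], nil_sfx _⟩), ⟨hp, rfl, rfl⟩,
      (q, ⟨[], nil_sfx _⟩, ⟨[], nil_sfx _⟩), ⟨hq, rfl, rfl⟩, ps, b1,
      by show ps.flatMap (inp' T h S) ∈ B; rw [b2]; exact h2, b3⟩
  · rintro ⟨x, ⟨hx1, hx2, hx3⟩, y, ⟨hy1, hy2, hy3⟩, ps, h1, h2, rfl⟩
    obtain ⟨es, m, a1, a2, a3, a4, a5⟩ := sound T h S ps x y h1
    rw [hx2, hy2, List.nil_append, List.append_nil] at a3
    rw [hx3, hy3, List.nil_append, List.append_nil] at a4
    exact ⟨a5, x.1, hx1, y.1, hy1, es, a1, by rw [a2]; exact h2, by rw [a3]; exact a4.symm⟩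

end Pool.Agent.Lib.F1c4
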