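import Mathlib

/-!
# The words x y ^ j u and u y ^ j x (MP_f1c4ef_lc)
-/

set_option autoImplicit false

namespace Pool.Agent.Lib.F1c4

/-- the word `x y ^ j u` (for `r = true`), or `u y ^ j x` (for `r = false`) -/
def word (r : Bool) (x y u : List ℕ) (j : ℕ) : List ℕ :=
  if r then x ++ (List.replicate j y).flatten ++ u else u ++ (List.replicate j y).flatten ++ x

end Pool.Agent.Lib.F1c4
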