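import Pool.Agent.Lib.F1c4.Main
import Pool.Agent.Lib.F1c4.TCone
import Pool.Agent.Lib.F1c4.TInv
import Pool.Agent.Lib.F1c4.Mem
import Pool.Agent.Lib.F1c4.NonReg
import Pool.Agent.Lib.F1c4.Rev
import Pool.Agent.Lib.F1c4.Word

/-!
# Minimal rational cones: the uniformity principle (MP_f1c4ef_lc)
-/

set_option autoImplicit false

namespace Pool.Agent.Lib.F1c4

namespace FinalAux

/-- the least cone that contains `B` -/
def LC (B : Language ℕ) : Set (Language ℕ) := {A | ∀ F : Set (Language ℕ), IsCone F → B ∈ F → A ∈ F}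

theorem lc_cone {F : Set (Language ℕ)} (hF : IsCone F) {B : Language ℕ} (hB : B ∈ F)
    (hne : ∃ w, w ∈ B) : IsCone (LC B) where
  alph := fun L hL => hF.alph L (hL F hF hB)
  nonempty := ⟨B, fun _ _ h => h, hne⟩
  hom := fun L hL h F' h1 h2 => h1.hom L (hL F' h1 h2) h
  inv := fun L hL h S F' h1 h2 => h1.inv L (hL F' h1 h2) h S
  inter := fun L hL R hR F' h1 h2 => h1.inter L (hL F' h1 h2) R hR

theorem tc_cone {B : Language ℕ} (hB : ∃ S : Finset ℕ, ∀ w ∈ B, ∀ a ∈ w, a ∈ S)
    (hne : ∃ w, w ∈ B) : IsCone (TC B) where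
  alph := tc_alph
  nonempty := ⟨B, tc_self hB, hne⟩
  hom := tc_hom
  inv := tc_inv
  inter := tc_inter

/-- no minimal cone contains both languages -/
theorem no_both {F : Set (Language ℕ)} (hF : IsMinimal F) {Γ : Finset ℕ} {b : ℕ}
    {R : ℕ → Language ℕ} (H : Hyp Γ b R) (h1 : LR Γ b R ∈ F) (h2 : BR Γ b R ∈ F) : False := by
  have hne : ∃ w, w ∈ BR Γ b R := by
    obtain ⟨K0, hK⟩ := rep_mem H [b] (fun a ha => by
      rw [List.mem_singleton.1 ha]
      exact Finset.mem_insert_self _ _) (List.mem_singleton.2 rfl)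
    exact ⟨_, hK K0 (le_refl _) [] [] (fun a ha => absurd ha List.not_mem_nil)
      (fun a ha => absurd ha List.not_mem_nil)⟩
  have hal : ∃ S : Finset ℕ, ∀ w ∈ BR Γ b R, ∀ a ∈ w, a ∈ S :=
    ⟨insert b Γ, fun w hw => MainAux.br_ov hw⟩
  have hc : IsCone (LC (BR Γ b R)) := lc_cone hF.1 h2 hne
  have hBM : BR Γ b R ∈ LC (BR Γ b R) := fun _ _ h => h
  have hr : {L | Rat L} ⊂ LC (BR Γ b R) := by
    refine ⟨fun K hK => rat_mem hc hK, fun hsub => ?_⟩
    exact br_nonreg H (hsub hBM).1
  have hMF : LC (BR Γ b R) ⊆ F := fun A hA => hA F hF.1 h2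
  have hFM : F ⊆ LC (BR Γ b R) := by
    by_contra hn
    exact hF.2.2 _ hc hr ⟨hMF, hn⟩
  exact not_mem H (hFM h1 _ (tc_cone hal hne) (tc_self hal))

theorem fwd {F : Set (Language ℕ)} (hF : IsMinimal F) {A : Language ℕ} (hA : A ∈ F)
    (x y : List ℕ) (Γ : Finset ℕ)
    (hreg : ∀ j : ℕ, Language.IsRegular
      ({u : List ℕ | Ov Γ u ∧ x ++ (List.replicate j y).flatten ++ u ∉ A} : Language ℕ))
    (h : ∀ u : List ℕ, Ov Γ u → {j : ℕ | x ++ (List.replicate j y).flatten ++ u ∉ A}.Finite) :
    ∃ j : ℕ, ∀ u : List ℕ, Ov Γ u → x ++ (List.replicate j y).flatten ++ u ∈ A := by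
  by_contra hcon
  push Not at hcon
  obtain ⟨b, hb⟩ := Infinite.exists_notMem_finset Γ
  refine no_both hF (Γ := Γ) (b := b)
    (R := fun j => ({u : List ℕ | Ov Γ u ∧ x ++ (List.replicate j y).flatten ++ u ∉ A} :
      Language ℕ)) ⟨hb, fun j u hu => hu.1, hreg, fun j => ?_, fun u => ?_⟩
    (lr_mem hF.1 hA x y Γ b) (br_mem hF.1 hA x y Γ b)
  · obtain ⟨u, hu, hu'⟩ := hcon j
    exact ⟨u, hu, hu'⟩
  · by_cases hu : Ov Γ u
    · exact (h u hu).subset (fun j hj => hj.2)
    · exact Set.finite_empty.subset (fun j hj => absurd hj.1 hu)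

theorem rev_pow (y : List ℕ) (j : ℕ) :
    ((List.replicate j y).flatten).reverse = (List.replicate j y.reverse).flatten := by
  rw [List.reverse_flatten, List.map_replicate, List.reverse_replicate]

theorem rev_word (x y u : List ℕ) (j : ℕ) :
    (x.reverse ++ (List.replicate j y.reverse).flatten ++ u).reverse
      = u.reverse ++ (List.replicate j y).flatten ++ x := by
  rw [List.reverse_append, List.reverse_append, ← rev_pow, List.reverse_reverse,
    List.reverse_reverse, List.append_assoc]

theorem ov_rev {Γ : Finset ℕ} {u : List ℕ} (h : Ov Γ u) : Ov Γ u.reverse :=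
  fun a ha => h a (List.mem_reverse.1 ha)

theorem both {F : Set (Language ℕ)} (hF : IsMinimal F) {A : Language ℕ} (hA : A ∈ F)
    (r : Bool) (x y : List ℕ) (Γ : Finset ℕ)
    (hreg : ∀ j : ℕ, Language.IsRegular
      ({u : List ℕ | (∀ a ∈ u, a ∈ Γ) ∧ word r x y u j ∉ A} : Language ℕ))
    (h : ∀ u : List ℕ, (∀ a ∈ u, a ∈ Γ) → {j : ℕ | word r x y u j ∉ A}.Finite) :
    ∃ j : ℕ, ∀ u : List ℕ, (∀ a ∈ u, a ∈ Γ) → word r x y u j ∈ A := by
  cases r with
  | true => exact fwd hF hA x y Γ hreg h
  | false =>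
    have hA' : rl A ∈ rv F := by
      change rl (rl A) ∈ F
      rw [rl_rl]
      exact hA
    have key : ∀ (j : ℕ) (u : List ℕ),
        x.reverse ++ (List.replicate j y.reverse).flatten ++ u ∈ rl A ↔
        word false x y u.reverse j ∈ A := by
      intro j u
      change (x.reverse ++ (List.replicate j y.reverse).flatten ++ u).reverse ∈ A ↔ _
      rw [rev_word]
      exact Iff.rfl
    obtain ⟨j, hj⟩ := fwd (rv_minimal hF) hA' x.reverse y.reverse Γ (fun j => by
        have h1 := (hreg j).reverse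
        have h2 : Language.reverse
            ({u : List ℕ | (∀ a ∈ u, a ∈ Γ) ∧ word false x y u j ∉ A} : Language ℕ)
            = ({u : List ℕ | Ov Γ u ∧ x.reverse ++ (List.replicate j y.reverse).flatten ++ u
              ∉ rl A} : Language ℕ) := by
          ext u
          rw [Language.mem_reverse]
          constructor
          · rintro ⟨h3, h4⟩
            refine ⟨?_, fun h5 => h4 ((key j u).1 h5)⟩
            have h6 := ov_rev h3
            rw [List.reverse_reverse] at h6
            exact h6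
          · rintro ⟨h3, h4⟩
            exact ⟨ov_rev h3, fun h5 => h4 ((key j u).2 h5)⟩
        rw [← h2]
        exact h1) (fun u hu => by
        refine (h u.reverse (ov_rev hu)).subset ?_
        intro j hj h5
        exact hj ((key j u).2 h5))
    refine ⟨j, fun u hu => ?_⟩
    have h1 := (key j u.reverse).1 (hj u.reverse (ov_rev hu))
    rw [List.reverse_reverse] at h1
    exact h1

theorem word_shift (r : Bool) (x y u : List ℕ) (N j : ℕ) :
    word r x y u (N + j) = word r (if r then x ++ (List.replicate N y).flatten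
      else (List.replicate N y).flatten ++ x) y u j := by
  have h1 : (List.replicate (N + j) y).flatten
      = (List.replicate N y).flatten ++ (List.replicate j y).flatten := by
    rw [← List.replicate_append_replicate, List.flatten_append]
  have h2 : (List.replicate (N + j) y).flatten
      = (List.replicate j y).flatten ++ (List.replicate N y).flatten := by
    rw [Nat.add_comm, ← List.replicate_append_replicate, List.flatten_append]
  cases r with
  | true =>
    change x ++ (List.replicate (N + j) y).flatten ++ u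
      = (x ++ (List.replicate N y).flatten) ++ (List.replicate j y).flatten ++ u
    rw [h1, List.append_assoc, List.append_assoc, List.append_assoc, List.append_assoc]
  | false =>
    change u ++ (List.replicate (N + j) y).flatten ++ x
      = u ++ (List.replicate j y).flatten ++ ((List.replicate N y).flatten ++ x)
    rw [h2, List.append_assoc, List.append_assoc, List.append_assoc]

theorem uniform {F : Set (Language ℕ)} (hF : IsMinimal F) {A : Language ℕ} (hA : A ∈ F)
    (r : Bool) (x y : List ℕ) (Γ : Finset ℕ)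
    (hreg : ∀ᶠ j : ℕ in Filter.atTop, Language.IsRegular
      ({u : List ℕ | (∀ a ∈ u, a ∈ Γ) ∧ word r x y u j ∉ A} : Language ℕ))
    (h : ∀ u : List ℕ, (∀ a ∈ u, a ∈ Γ) → ∀ᶠ j : ℕ in Filter.atTop, word r x y u j ∈ A) :
    ∃ᶠ j : ℕ in Filter.atTop, ∀ u : List ℕ, (∀ a ∈ u, a ∈ Γ) → word r x y u j ∈ A := by
  rw [Filter.frequently_atTop]
  intro N
  obtain ⟨N1, hN1⟩ := Filter.eventually_atTop.1 hreg
  obtain ⟨j, hj⟩ := both hF hA r (if r then x ++ (List.replicate (N + N1) y).flatten
      else (List.replicate (N + N1) y).flatten ++ x) y Γ (fun j => by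
      have h1 := hN1 (N + N1 + j) (by omega)
      simp only [word_shift r x y _ (N + N1) j] at h1
      exact h1) (fun u hu => by
      obtain ⟨N2, hN2⟩ := Filter.eventually_atTop.1 (h u hu)
      refine (Set.finite_lt_nat N2).subset ?_
      intro j hj
      by_contra hlt
      apply hj
      rw [← word_shift r x y u (N + N1) j]
      have h3 : ¬ j < N2 := hlt
      exact hN2 _ (by omega))
  refine ⟨N + N1 + j, by omega, fun u hu => ?_⟩
  rw [word_shift r x y u (N + N1) j]
  exact hj u hu

end FinalAux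

end Pool.Agent.Lib.F1c4
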