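import Pool.Agent.Lib.F1c4.RegA

/-!
# Module F1c4.VReg: the languages VR are regular (MP_f1c4ef_lc)

PROOF of `v_reg`, by induction on `n` for all `R`. Let `W = {w | ∃ u ∈ A, ∃ v ∈ B, w = u ++ [b] ++ v}` with
`A = {u | Ov Γ u} ⊓ (R 0)ᶜ` and `B = {v | Ov (insert b Γ) v}` (regular by `star_reg`, `IsRegular.compl`,
`IsRegular.inf`, `cat_reg`; `b` is not a letter of a word over `Γ`). `VR Γ b R 0 = W`: if
`p.count b = 0` then `p = []` (otherwise `p` ends with `b`). `VR Γ b R (n + 1) = W + W'` with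
`W' = {w | ∃ u, Ov Γ u, ∃ v ∈ VR Γ b (fun j => R (j + 1)) n, w = u ++ [b] ++ v}` (`Language.add_def` /
`Language.mem_add`: union; `IsRegular.add`). ⊆: for `p = []` we are in `W`; otherwise `p` contains `b`,
`p = u' ++ [b] ++ p2` with `u'` over `Γ` (first letter `b`) and `p2` empty or ending with `b`,
`p.count b = p2.count b + 1`. ⊇ is similar.
-/

set_option autoImplicit false

namespace Pool.Agent.Lib.F1c4

namespace VRegAux

/-- the first block is not in `R 0` -/
def W0 (Γ : Finset ℕ) (b : ℕ) (R : ℕ → Language ℕ) : Language ℕ :=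
  {w : List ℕ | ∃ u ∈ (({u : List ℕ | Ov Γ u} : Language ℕ) ⊓ (R 0)ᶜ : Language ℕ),
    ∃ v ∈ ({v : List ℕ | Ov (insert b Γ) v} : Language ℕ), w = u ++ [b] ++ v}

/-- one more block -/
def W1 (Γ : Finset ℕ) (b : ℕ) (L : Language ℕ) : Language ℕ :=
  {w : List ℕ | ∃ u ∈ ({u : List ℕ | Ov Γ u} : Language ℕ), ∃ v ∈ L, w = u ++ [b] ++ v}

variable {Γ : Finset ℕ} {b : ℕ}

theorem mem_W0 {R : ℕ → Language ℕ} {w : List ℕ} : w ∈ W0 Γ b R ↔
    ∃ u v : List ℕ, Ov Γ u ∧ u ∉ R 0 ∧ Ov (insert b Γ) v ∧ w = u ++ [b] ++ v := by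
  constructor
  · rintro ⟨u, ⟨h1, h2⟩, v, h3, h4⟩
    exact ⟨u, v, h1, h2, h3, h4⟩
  · rintro ⟨u, v, h1, h2, h3, h4⟩
    exact ⟨u, ⟨h1, h2⟩, v, h3, h4⟩

theorem mem_W1 {L : Language ℕ} {w : List ℕ} : w ∈ W1 Γ b L ↔
    ∃ u v : List ℕ, Ov Γ u ∧ v ∈ L ∧ w = u ++ [b] ++ v := by
  constructor
  · rintro ⟨u, h1, v, h2, h3⟩
    exact ⟨u, v, h1, h2, h3⟩
  · rintro ⟨u, v, h1, h2, h3⟩
    exact ⟨u, h1, v, h2, h3⟩

theorem not_mem (hb : b ∉ Γ) {u : List ℕ} (hu : Ov Γ u) : b ∉ u := fun h => hb (hu b h)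

theorem count_zero {p : List ℕ} (hp : p = [] ∨ ∃ p', p = p' ++ [b]) (h : p.count b = 0) :
    p = [] := by
  rcases hp with h1 | ⟨p', h1⟩
  · exact h1
  · exfalso
    rw [List.count_eq_zero] at h
    apply h
    rw [h1]
    exact List.mem_append_right _ (List.mem_singleton.2 rfl)

theorem ov_append {Δ : Finset ℕ} {u v : List ℕ} : Ov Δ (u ++ v) ↔ Ov Δ u ∧ Ov Δ v := by
  constructor
  · intro h
    exact ⟨fun a ha => h a (List.mem_append_left _ ha), fun a ha => h a (List.mem_append_right _ ha)⟩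
  · rintro ⟨h1, h2⟩ a ha
    rcases List.mem_append.1 ha with h | h
    · exact h1 a h
    · exact h2 a h

theorem ov_mono {u : List ℕ} (h : Ov Γ u) : Ov (insert b Γ) u := fun a ha =>
  Finset.mem_insert_of_mem (h a ha)

theorem ov_b : Ov (insert b Γ) [b] := by
  intro a ha
  rw [List.mem_singleton] at ha
  rw [ha]
  exact Finset.mem_insert_self _ _

theorem ov_of_not {u : List ℕ} (h : Ov (insert b Γ) u) (hu : b ∉ u) : Ov Γ u := by
  intro a ha
  rcases Finset.mem_insert.1 (h a ha) with h1 | h1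
  · exact absurd (h1 ▸ ha) hu
  · exact h1

theorem v_zero (R : ℕ → Language ℕ) : VR Γ b R 0 = W0 Γ b R := by
  apply Set.ext
  intro w
  constructor
  · rintro ⟨p, u, s, hp, -, hu, hs, hc, hR, rfl⟩
    have h1 := count_zero hp (Nat.le_zero.1 hc)
    subst h1
    exact mem_W0.2 ⟨u, s, hu, hR, hs, rfl⟩
  · intro h
    obtain ⟨u, v, h1, h2, h3, rfl⟩ := mem_W0.1 h
    exact ⟨[], u, v, Or.inl rfl, fun a ha => absurd ha List.not_mem_nil, h1, h3, le_rfl, h2, rfl⟩

theorem v_succ (hb : b ∉ Γ) (R : ℕ → Language ℕ) (n : ℕ) :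
    VR Γ b R (n + 1) = W0 Γ b R + W1 Γ b (VR Γ b (fun j => R (j + 1)) n) := by
  apply Set.ext
  intro w
  constructor
  · rintro ⟨p, u, s, hp, hpo, hu, hs, hc, hR, rfl⟩
    rcases Nat.eq_zero_or_pos (p.count b) with h0 | h0
    · left
      rw [h0] at hR
      have h1 := count_zero hp h0
      subst h1
      exact mem_W0.2 ⟨u, s, hu, hR, hs, rfl⟩
    · right
      have hbp : b ∈ p := List.count_pos_iff.1 h0
      obtain ⟨u', p2, rfl, hu'⟩ := List.eq_append_cons_of_mem hbp
      have e0 : u' ++ b :: p2 = u' ++ [b] ++ p2 := by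
        rw [List.append_assoc, List.singleton_append]
      rw [e0] at hp hpo hc hR ⊢
      obtain ⟨hpo1, hpo2⟩ := ov_append.1 hpo
      have hu'o : Ov Γ u' := ov_of_not (ov_append.1 hpo1).1 hu'
      have hcount : (u' ++ [b] ++ p2).count b = p2.count b + 1 := by
        rw [List.count_append, List.count_append, List.count_eq_zero.2 hu', List.count_singleton_self]
        omega
      rw [hcount] at hc hR
      have hp2 : p2 = [] ∨ ∃ p', p2 = p' ++ [b] := by
        rcases List.eq_nil_or_concat p2 with h | ⟨l, a, h⟩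
        · exact Or.inl h
        · right
          rw [List.concat_eq_append] at h
          rcases hp with h1 | ⟨p', h1⟩
          · exfalso
            rw [List.append_eq_nil_iff, List.append_eq_nil_iff] at h1
            exact absurd h1.1.2 (List.cons_ne_nil _ _)
          · rw [h, ← List.append_assoc] at h1
            have h2 := (List.append_inj' h1 rfl).2
            rw [List.cons.injEq] at h2
            exact ⟨l, by rw [h, h2.1]⟩
      refine mem_W1.2 ⟨u', p2 ++ u ++ [b] ++ s, hu'o, ?_, ?_⟩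
      · exact ⟨p2, u, s, hp2, hpo2, hu, hs, by omega, hR, rfl⟩
      · simp only [List.append_assoc]
  · rintro (h | h)
    · obtain ⟨u, v, h1, h2, h3, rfl⟩ := mem_W0.1 h
      exact ⟨[], u, v, Or.inl rfl, fun a ha => absurd ha List.not_mem_nil, h1, h3,
        Nat.zero_le _, h2, rfl⟩
    · obtain ⟨u', v, h1, ⟨p, u, s, hp, hpo, hu, hs, hc, hR, h3⟩, rfl⟩ := mem_W1.1 h
      subst h3
      have hcount : (u' ++ [b] ++ p).count b = p.count b + 1 := by
        rw [List.count_append, List.count_append, List.count_eq_zero.2 (not_mem hb h1),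
          List.count_singleton_self]
        omega
      refine ⟨u' ++ [b] ++ p, u, s, Or.inr ?_, ?_, hu, hs, ?_, ?_, ?_⟩
      · rcases hp with h2 | ⟨p', h2⟩
        · exact ⟨u', by rw [h2, List.append_nil]⟩
        · exact ⟨u' ++ [b] ++ p', by rw [h2, List.append_assoc, List.append_assoc, List.append_assoc]⟩
      · exact ov_append.2 ⟨ov_append.2 ⟨ov_mono h1, ov_b⟩, hpo⟩
      · rw [hcount]
        omega
      · rw [hcount]
        exact hR
      · simp only [List.append_assoc]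

end VRegAux

open VRegAux

theorem v_reg {Γ : Finset ℕ} {b : ℕ} (hb : b ∉ Γ) (R : ℕ → Language ℕ)
    (hR : ∀ j, (R j).IsRegular) (n : ℕ) : (VR Γ b R n).IsRegular := by
  have hA : ∀ u ∈ ({u : List ℕ | Ov Γ u} : Language ℕ), b ∉ u := fun u hu => not_mem hb hu
  have hW0 : ∀ R : ℕ → Language ℕ, (∀ j, (R j).IsRegular) → (W0 Γ b R).IsRegular :=
    fun R hR => cat_reg b ((star_reg Γ).inf (hR 0).compl) (star_reg (insert b Γ))
      fun u hu => hA u hu.1
  induction n generalizing R with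
  | zero =>
    rw [v_zero]
    exact hW0 R hR
  | succ n ih =>
    rw [v_succ hb]
    exact (hW0 R hR).add (cat_reg b (star_reg Γ) (ih _ fun j => hR (j + 1)) hA)

end Pool.Agent.Lib.F1c4
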