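import Pool.Agent.Lib.F1c4.DelP
import Pool.Agent.Lib.F1c4.VReg
import Pool.Agent.Lib.F1c4.Rep

/-!
# Main step: LR is not the image of BR under a finite transducer (MP_f1c4ef_lc)
-/

set_option autoImplicit false

namespace Pool.Agent.Lib.F1c4

namespace MainAux

theorem lr_iff {Γ : Finset ℕ} {b : ℕ} {R : ℕ → Language ℕ} (hb : b ∉ Γ) {j : ℕ} {u : List ℕ}
    (hu : Ov Γ u) : List.replicate j b ++ u ∈ LR Γ b R ↔ u ∉ R j := by
  constructor
  · rintro ⟨j', u', hu', hn, he⟩
    have hc : ∀ v, Ov Γ v → v.count b = 0 := fun v hv =>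
      List.count_eq_zero.2 (fun h => hb (hv b h))
    have h1 := congrArg (List.count b) he
    rw [List.count_append, List.count_append, List.count_replicate_self,
      List.count_replicate_self, hc u hu, hc u' hu', add_zero, add_zero] at h1
    rw [h1] at he ⊢
    rw [List.append_cancel_left he]
    exact hn
  · intro h
    exact ⟨j, u, hu, h, rfl⟩

theorem split {E : Type} (w : E → ℕ) (ℓ : ℕ) (hℓ : ∀ e, w e ≤ ℓ) (es : List E) (J : ℕ)
    (h : J ≤ (es.map w).sum) : ∃ es1 es2, es = es1 ++ es2 ∧ (es1.map w).sum ≤ J ∧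
      J ≤ (es1.map w).sum + ℓ := by
  induction es generalizing J with
  | nil =>
    refine ⟨[], [], rfl, Nat.zero_le _, ?_⟩
    have : J ≤ 0 := h
    omega
  | cons e es ih =>
    by_cases he : w e ≤ J
    · rw [List.map_cons, List.sum_cons] at h
      obtain ⟨es1, es2, h1, h2, h3⟩ := ih (J - w e) (by omega)
      refine ⟨e :: es1, es2, by rw [h1]; rfl, ?_, ?_⟩
      · rw [List.map_cons, List.sum_cons]
        omega
      · rw [List.map_cons, List.sum_cons]
        omega
    · refine ⟨[], e :: es, rfl, Nat.zero_le _, ?_⟩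
      have := hℓ e
      have h0 : (([] : List E).map w).sum = 0 := rfl
      omega

theorem br_ov {Γ : Finset ℕ} {b : ℕ} {R : ℕ → Language ℕ} {z : List ℕ} (hz : z ∈ BR Γ b R) :
    Ov (insert b Γ) z := by
  obtain ⟨p, u, s, -, h1, h2, h3, -, rfl⟩ := hz
  refine ((h1.append h2.ins).append ?_).append h3
  intro a ha
  rw [List.mem_singleton.1 ha]
  exact Finset.mem_insert_self _ _

theorem sub_prop {E : Type} {f : E → List ℕ} {P : ℕ → Prop} {es' es : List E}
    (h : ∀ e ∈ es', e ∈ es) (hP : ∀ a ∈ es.flatMap f, P a) : ∀ a ∈ es'.flatMap f, P a := by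
  intro a ha
  obtain ⟨e, he, hae⟩ := List.mem_flatMap.1 ha
  exact hP a (List.mem_flatMap.2 ⟨e, h e he, hae⟩)

theorem flat_pow {E : Type} (f : E → List ℕ) (y : List E) (k : ℕ) :
    ((List.replicate k y).flatten).flatMap f = (List.replicate k (y.flatMap f)).flatten := by
  induction k with
  | zero => rfl
  | succ k ih =>
    rw [List.replicate_succ, List.flatten_cons, List.flatMap_append, ih, List.replicate_succ,
      List.flatten_cons]

theorem len_pow (v : List ℕ) (k : ℕ) : ((List.replicate k v).flatten).length = k * v.length := by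
  rw [List.length_flatten, List.map_replicate, List.sum_replicate, smul_eq_mul]

theorem mem_pow {E : Type} {y : List E} {k : ℕ} {e : E} (h : e ∈ (List.replicate k y).flatten) :
    e ∈ y := by
  obtain ⟨l, hl, he⟩ := List.mem_flatten.1 h
  rw [List.eq_of_mem_replicate hl] at he
  exact he

theorem len_flat {E : Type} (f : E → List ℕ) (es : List E) :
    (es.flatMap f).length = (es.map (fun e => (f e).length)).sum := List.length_flatMap

theorem count_flat {E : Type} (f : E → List ℕ) (b : ℕ) (es : List E) :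
    (es.flatMap f).count b = (es.map (fun e => (f e).count b)).sum := by
  rw [List.count_flatMap]
  rfl

theorem rep_of {v : List ℕ} {b n : ℕ} (h : ∀ a ∈ v, a = b) (hn : v.length = n) :
    v = List.replicate n b := List.eq_replicate_iff.2 ⟨hn, h⟩

/-- `y` is a loop at `s` that writes only letters `b` and reads a word over `Γ` and `b` with `b` -/
def Cyc (T : FT) (Γ : Finset ℕ) (b : ℕ) (s : T.σ) (y : List T.E) : Prop :=
  IsPath T.src T.tgt s y s ∧ (∀ a ∈ y.flatMap T.out, a = b) ∧
    Ov (insert b Γ) (y.flatMap T.inp) ∧ b ∈ y.flatMap T.inp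

theorem bdd {σ : Type} [Finite σ] (f : σ → ℕ) : ∃ m, ∀ s, f s ≤ m := by
  obtain ⟨m, hm⟩ := (Set.finite_range f).bddAbove
  exact ⟨m, fun s => hm ⟨s, rfl⟩⟩

/-- late violations: the part `z1` read first is replaced by `z1'` with the same number of
letters `b` and the same state of the automaton of `VR` -/
theorem replace {Γ : Finset ℕ} {b : ℕ} {R : ℕ → Language ℕ} {ν : ℕ} {τ : Type}
    (M : DFA ℕ τ) (hM : M.accepts = VR Γ b R ν) {z1 z1' z2 : List ℕ}
    (hz : z1 ++ z2 ∈ BR Γ b R) (hν : z1.count b ≤ ν) (hc : z1'.count b = z1.count b)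
    (he : M.eval z1' = M.eval z1) (ho : Ov (insert b Γ) z1') : z1' ++ z2 ∈ BR Γ b R := by
  obtain ⟨p, u, s, hp, h1, h2, h3, h4, h5⟩ := hz
  by_cases hn : p.count b ≤ ν
  · have h6 : z1 ++ z2 ∈ M.accepts := by
      rw [hM]
      exact ⟨p, u, s, hp, h1, h2, h3, hn, h4, h5⟩
    have h7 : z1' ++ z2 ∈ M.accepts := by
      have h8 : M.eval (z1 ++ z2) ∈ M.accept := h6
      have h9 : M.eval (z1' ++ z2) ∈ M.accept := by
        unfold DFA.eval at he h8 ⊢
        rw [DFA.evalFrom_of_append] at h8 ⊢
        rw [he]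
        exact h8
      exact h9
    rw [hM] at h7
    obtain ⟨p', u', s', a1, a2, a3, a4, -, a6, a7⟩ := h7
    exact ⟨p', u', s', a1, a2, a3, a4, a6, a7⟩
  · -- `p` is longer than `z1`
    have h6 : z1 ++ z2 = p ++ (u ++ [b] ++ s) := by
      rw [h5]
      simp [List.append_assoc]
    rcases List.append_eq_append_iff.1 h6 with ⟨p2, hp2, hz2⟩ | ⟨p2, hp2, hz2⟩
    · -- p = z1 ++ p2
      have hp2ne : p2 ≠ [] := by
        rintro rfl
        rw [List.append_nil] at hp2
        rw [hp2] at hn
        exact hn hν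
      rcases hp with hp | ⟨p', hp'⟩
      · rw [hp] at hp2
        have := (List.append_eq_nil_iff.1 hp2.symm).2
        exact absurd this hp2ne
      · have hlast : ∃ p3, p2 = p3 ++ [b] := by
          rcases List.eq_nil_or_concat p2 with h | ⟨p3, c, h⟩
          · exact absurd h hp2ne
          · rw [List.concat_eq_append] at h
            rw [h, ← List.append_assoc] at hp2
            rw [hp'] at hp2
            have h7 := (List.append_inj' hp2 rfl).2
            rw [← h7] at h
            exact ⟨p3, h⟩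
        obtain ⟨p3, hp3⟩ := hlast
        have hcount : (z1' ++ p2).count b = p.count b := by
          rw [hp2, List.count_append, List.count_append, hc]
        refine ⟨z1' ++ p2, u, s, Or.inr ⟨z1' ++ p3, ?_⟩, ho.append ?_, h2, h3, ?_, ?_⟩
        · rw [hp3, List.append_assoc]
        · rw [hp2] at h1
          exact h1.right
        · rw [hcount]
          exact h4
        · rw [hz2]
          simp [List.append_assoc]
    · -- z1 = p ++ p2
      exfalso
      apply hn
      rw [hp2, List.count_append] at hν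
      omega

end MainAux

open MainAux in
theorem not_mem {Γ : Finset ℕ} {b : ℕ} {R : ℕ → Language ℕ} (H : Hyp Γ b R) :
    LR Γ b R ∉ TC (BR Γ b R) := by
  classical
  rintro ⟨T, hT⟩
  have hfσ := T.fσ
  have hfE := T.fE
  obtain ⟨ℓ', hℓ'⟩ := bdd (fun e : T.E => (T.out e).length)
  obtain ⟨ℓ, hℓ0, hℓ⟩ : ∃ ℓ, 0 < ℓ ∧ ∀ e : T.E, (T.out e).length ≤ ℓ :=
    ⟨ℓ' + 1, Nat.succ_pos _, fun e => (hℓ' e).trans (Nat.le_succ _)⟩
  obtain ⟨m, hm⟩ := bdd (fun e : T.E => (T.inp e).count b)
  obtain ⟨τ, hτ, MV, hMV⟩ := v_reg H.nb R H.reg (m * Nat.card T.σ)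
  obtain ⟨D, hD0, hD⟩ : ∃ D, 0 < D ∧ ∀ l, 1 ≤ l → l ≤ ℓ * (Nat.card (T.σ × τ) + 2) → l ∣ D :=
    ⟨(ℓ * (Nat.card (T.σ × τ) + 2)).factorial, Nat.factorial_pos _,
      fun l h1 h2 => Nat.dvd_factorial h1 h2⟩
  have hcard : Nat.card T.σ ≤ Nat.card (T.σ × τ) := by
    rw [Nat.card_prod]
    have : Nonempty τ := ⟨MV.start⟩
    exact Nat.le_mul_of_pos_right _ Nat.card_pos
  -- loops reading the letter `b`
  have hex : ∀ s : T.σ, ∃ (y : List T.E) (K0 : ℕ), (∃ y', Cyc T Γ b s y') → (Cyc T Γ b s y ∧
      ∀ k, K0 ≤ k → ∀ z1 z2 : List ℕ, Ov (insert b Γ) z1 → Ov (insert b Γ) z2 →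
        z1 ++ (List.replicate k (y.flatMap T.inp)).flatten ++ z2 ∈ BR Γ b R) := by
    intro s
    by_cases h : ∃ y', Cyc T Γ b s y'
    · obtain ⟨y, hy⟩ := h
      obtain ⟨K0, hK0⟩ := rep_mem H (y.flatMap T.inp) hy.2.2.1 hy.2.2.2
      exact ⟨y, K0, fun _ => ⟨hy, hK0⟩⟩
    · exact ⟨[], 0, fun h' => absurd h' h⟩
  choose y K0 hy using hex
  obtain ⟨κ, hκ⟩ := bdd K0
  have hdel : ∀ s : T.σ, ∃ C : ℕ, ∀ (p q : T.σ) (es : List T.E), IsPath T.src T.tgt p es q →
      C ≤ (es.map (fun e => (T.out e).length)).sum →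
      ∃ es' : List T.E, IsPath T.src T.tgt p es' q ∧ es'.Sublist es ∧
        (es'.map (fun e => (T.out e).length)).sum + (D + κ * D * ((y s).flatMap T.out).length)
          = (es.map (fun e => (T.out e).length)).sum := by
    intro s
    obtain ⟨C, hC⟩ := del T.src T.tgt (fun e => (T.out e).length) ℓ
      (D + κ * D * ((y s).flatMap T.out).length) hℓ0 hℓ (by
        intro l h1 h2
        have h3 : l ∣ D := hD l h1 (h2.trans (Nat.mul_le_mul_left _ (by omega)))
        exact (Nat.dvd_add_right h3).2 (Dvd.dvd.mul_right (Dvd.dvd.mul_left h3 _) _))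
    refine ⟨C, fun p q es h1 h2 => ?_⟩
    obtain ⟨es', h3, h4, h5, -⟩ := hC p q es h1 h2
    exact ⟨es', h3, h4, h5⟩
  choose C hC using hdel
  obtain ⟨Cm, hCm⟩ := bdd C
  obtain ⟨CB, hCB⟩ := delP T.src T.tgt T.inp b MV (fun e => (T.out e).length) ℓ D hℓ0 hℓ hD
  set j : ℕ := 2 * Cm + CB + ℓ with hj
  obtain ⟨u, hu⟩ := H.ne j
  have hou := H.ov j u hu
  have hexm : ∃ n : ℕ, u ∉ R (j + n * D) := by
    by_contra hcon
    push Not at hcon
    have hinf : {i | u ∈ R i}.Infinite := by
      refine Set.infinite_of_injective_forall_mem (f := fun n : ℕ => j + n * D) ?_ hcon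
      intro a c hac
      have h1 : a * D = c * D := Nat.add_left_cancel hac
      exact Nat.eq_of_mul_eq_mul_right hD0 h1
    exact hinf (H.fin u)
  obtain ⟨m', hm1, hm2⟩ : ∃ m', u ∉ R (j + (m' + 1) * D) ∧ u ∈ R (j + m' * D) := by
    have h1 := Nat.find_spec hexm
    have h2 : Nat.find hexm ≠ 0 := by
      intro h0
      rw [h0, zero_mul, add_zero] at h1
      exact h1 hu
    obtain ⟨m', hm'⟩ := Nat.exists_eq_succ_of_ne_zero h2
    refine ⟨m', ?_, ?_⟩
    · rw [hm'] at h1
      exact h1
    · have h3 := Nat.find_min hexm (m := m') (by omega)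
      exact not_not.1 h3
  set J : ℕ := j + (m' + 1) * D with hJ
  have hJD : J = (j + m' * D) + D := by
    rw [hJ]
    ring
  have hin : List.replicate J b ++ u ∈ LR Γ b R := (lr_iff H.nb hou).2 hm1
  rw [hT] at hin
  obtain ⟨p, hpi, q, hqf, es, hpath, hinp, hout⟩ := hin
  have hbad : ∀ es', IsPath T.src T.tgt p es' q → es'.flatMap T.inp ∈ BR Γ b R →
      es'.flatMap T.out = List.replicate (J - D) b ++ u → False := by
    intro es' h1 h2 h3
    have h4 : List.replicate (J - D) b ++ u ∈ T.img (BR Γ b R) := ⟨p, hpi, q, hqf, es', h1, h2, h3⟩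
    rw [← hT, lr_iff H.nb hou] at h4
    apply h4
    have h5 : J - D = j + m' * D := by omega
    rw [h5]
    exact hm2
  have hovz := br_ov hinp
  have hlen : J ≤ (es.map (fun e => (T.out e).length)).sum := by
    rw [← len_flat, hout, List.length_append, List.length_replicate]
    omega
  obtain ⟨es1, es2, hes, hc1, hc2⟩ := split (fun e => (T.out e).length) ℓ hℓ es J hlen
  rw [← len_flat] at hc1 hc2
  subst hes
  obtain ⟨q1, hp1, hp2⟩ := isPath_append.1 hpath
  rw [List.flatMap_append] at hout hovz hinp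
  set c1 : ℕ := (es1.flatMap T.out).length with hc1d
  have ho1 : es1.flatMap T.out = List.replicate c1 b := by
    have h1 := congrArg (List.take c1) hout
    rw [List.take_append_of_le_length (le_of_eq hc1d), List.take_of_length_le (le_of_eq hc1d.symm),
      List.take_append_of_le_length (by rw [List.length_replicate]; exact hc1),
      List.take_replicate, min_eq_left hc1] at h1
    exact h1
  have ho2 : es2.flatMap T.out = List.replicate (J - c1) b ++ u := by
    have h1 : List.replicate J b = List.replicate c1 b ++ List.replicate (J - c1) b := by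
      rw [List.replicate_append_replicate]
      congr 1
      omega
    rw [ho1, h1, List.append_assoc] at hout
    exact List.append_cancel_left hout
  have hb1 : ∀ a ∈ es1.flatMap T.out, a = b := by
    rw [ho1]
    exact fun a ha => List.eq_of_mem_replicate ha
  by_cases hA : ∃ (a1 a2 : List T.E) (s : T.σ), es1 = a1 ++ a2 ∧ IsPath T.src T.tgt p a1 s ∧
      IsPath T.src T.tgt s a2 q1 ∧ ∃ y', Cyc T Γ b s y'
  · -- Case A
    obtain ⟨a1, a2, s, ha, hpa1, hpa2, hcyc⟩ := hA
    obtain ⟨hcy, hrep⟩ := hy s hcyc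
    have hsum : (a1.flatMap T.out).length + (a2.flatMap T.out).length = c1 := by
      rw [hc1d, ha, List.flatMap_append, List.length_append]
    have hCs := hCm s
    -- shorten one of the two parts
    obtain ⟨a1', a2', h1, h2, hs1, hs2, h3⟩ : ∃ a1' a2' : List T.E,
        IsPath T.src T.tgt p a1' s ∧ IsPath T.src T.tgt s a2' q1 ∧
        (∀ e ∈ a1', e ∈ es1) ∧ (∀ e ∈ a2', e ∈ es1) ∧
        (a1'.flatMap T.out).length + (a2'.flatMap T.out).length
          + (D + κ * D * ((y s).flatMap T.out).length) = c1 := by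
      by_cases hlong : Cm ≤ (a1.flatMap T.out).length
      · obtain ⟨a1', h1, h2, h3⟩ := hC s p s a1 hpa1 (by rw [← len_flat]; omega)
        rw [← len_flat, ← len_flat] at h3
        refine ⟨a1', a2, h1, hpa2, fun e he => ?_, fun e he => ?_, by omega⟩
        · rw [ha]
          exact List.mem_append_left _ (h2.subset he)
        · rw [ha]
          exact List.mem_append_right _ he
      · obtain ⟨a2', h1, h2, h3⟩ := hC s s q1 a2 hpa2 (by rw [← len_flat]; omega)
        rw [← len_flat, ← len_flat] at h3
        refine ⟨a1, a2', hpa1, h1, fun e he => ?_, fun e he => ?_, by omega⟩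
        · rw [ha]
          exact List.mem_append_left _ he
        · rw [ha]
          exact List.mem_append_right _ (h2.subset he)
    refine hbad (a1' ++ (List.replicate (κ * D) (y s)).flatten ++ a2' ++ es2)
      (((h1.trans (hcy.1.loop_pow _)).trans h2).trans hp2) ?_ ?_
    · rw [List.flatMap_append, List.flatMap_append, List.flatMap_append, flat_pow,
        List.append_assoc (_ ++ _) (a2'.flatMap T.inp)]
      apply hrep
      · exact (hκ s).trans (Nat.le_mul_of_pos_right _ hD0)
      · exact sub_prop hs1 hovz.left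
      · exact Ov.append (sub_prop hs2 hovz.left) hovz.right
    · have e1 : a1'.flatMap T.out ++ (List.replicate (κ * D) ((y s).flatMap T.out)).flatten
          ++ a2'.flatMap T.out = List.replicate (c1 - D) b := by
        apply rep_of
        · intro a haa
          rcases List.mem_append.1 haa with haa | haa
          · rcases List.mem_append.1 haa with haa | haa
            · exact sub_prop hs1 hb1 a haa
            · exact hcy.2.1 a (mem_pow haa)
          · exact sub_prop hs2 hb1 a haa
        · rw [List.length_append, List.length_append, len_pow]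
          omega
      rw [List.flatMap_append, List.flatMap_append, List.flatMap_append, flat_pow, e1, ho2,
        ← List.append_assoc, List.replicate_append_replicate]
      congr 2
      omega
  · -- Case B
    have hloop : ∀ x z w : List T.E, ∀ s : T.σ, es1 = x ++ z ++ w → IsPath T.src T.tgt s z s →
        (z.flatMap T.inp).count b = 0 := by
      intro x z w s h1 h2
      by_contra hne
      have hbm : b ∈ z.flatMap T.inp := by
        by_contra hb'
        exact hne (List.count_eq_zero.2 hb')
      have hzne : z ≠ [] := by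
        rintro rfl
        exact hne rfl
      rw [h1] at hp1
      obtain ⟨h3, h4⟩ := hp1.of_loop h2 hzne
      have hsub : ∀ e ∈ z, e ∈ es1 := by
        intro e he
        rw [h1]
        exact List.mem_append_left _ (List.mem_append_right _ he)
      exact hA ⟨x, z ++ w, s, by rw [h1, List.append_assoc], h3, h2.trans h4, z, h2,
        sub_prop hsub hb1, sub_prop hsub hovz.left, hbm⟩
    have hν : (es1.flatMap T.inp).count b ≤ m * Nat.card T.σ := by
      rw [count_flat]
      refine count_le T.src T.tgt _ m hm p q1 es1 hp1 ?_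
      intro x z w s h1 h2
      rw [← count_flat]
      exact hloop x z w s h1 h2
    obtain ⟨es1', h1, h2, h3, h4, h5⟩ := hCB p q1 es1 hp1 (by rw [← len_flat]; omega) hloop
    rw [← len_flat, ← len_flat] at h3
    refine hbad (es1' ++ es2) (h1.trans hp2) ?_ ?_
    · rw [List.flatMap_append]
      exact replace MV hMV hinp hν h4 h5 (sub_prop (fun e he => h2.subset he) hovz.left)
    · rw [List.flatMap_append, ho2]
      have e1 : es1'.flatMap T.out = List.replicate (c1 - D) b := by
        apply rep_of
        · exact sub_prop (fun e he => h2.subset he) hb1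
        · omega
      rw [e1, ← List.append_assoc, List.replicate_append_replicate]
      congr 2
      omega

end Pool.Agent.Lib.F1c4
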