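import Pool.Agent.Lib.F1c4.Defs

/-!
# Basic facts on paths (MP_f1c4ef_lc)
-/

set_option autoImplicit false

namespace Pool.Agent.Lib.F1c4

theorem Ov.append {Γ : Finset ℕ} {v w : List ℕ} (h1 : Ov Γ v) (h2 : Ov Γ w) : Ov Γ (v ++ w) := by
  intro a ha
  rcases List.mem_append.1 ha with h | h
  · exact h1 a h
  · exact h2 a h

theorem Ov.left {Γ : Finset ℕ} {v w : List ℕ} (h : Ov Γ (v ++ w)) : Ov Γ v :=
  fun a ha => h a (List.mem_append_left _ ha)

theorem Ov.right {Γ : Finset ℕ} {v w : List ℕ} (h : Ov Γ (v ++ w)) : Ov Γ w :=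
  fun a ha => h a (List.mem_append_right _ ha)

theorem Ov.ins {Γ : Finset ℕ} {b : ℕ} {v : List ℕ} (h : Ov Γ v) : Ov (insert b Γ) v :=
  fun a ha => Finset.mem_insert_of_mem (h a ha)

theorem isPath_append {σ E : Type} {src tgt : E → σ} {p q : σ} {es fs : List E} :
    IsPath src tgt p (es ++ fs) q ↔ ∃ s, IsPath src tgt p es s ∧ IsPath src tgt s fs q := by
  induction es generalizing p with
  | nil =>
    constructor
    · intro h
      exact ⟨p, rfl, h⟩
    · rintro ⟨s, h1, h2⟩
      have h1' : p = s := h1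
      rw [h1']
      exact h2
  | cons e es ih =>
    constructor
    · rintro ⟨h1, h2⟩
      obtain ⟨s, h3, h4⟩ := ih.1 h2
      exact ⟨s, ⟨h1, h3⟩, h4⟩
    · rintro ⟨s, ⟨h1, h3⟩, h4⟩
      exact ⟨h1, ih.2 ⟨s, h3, h4⟩⟩

theorem IsPath.trans {σ E : Type} {src tgt : E → σ} {p s q : σ} {es fs : List E}
    (h1 : IsPath src tgt p es s) (h2 : IsPath src tgt s fs q) : IsPath src tgt p (es ++ fs) q :=
  isPath_append.2 ⟨s, h1, h2⟩

/-- the start of a nonempty path is determined -/
theorem IsPath.start_eq {σ E : Type} {src tgt : E → σ} {p p' q q' : σ} {es : List E}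
    (h1 : IsPath src tgt p es q) (h2 : IsPath src tgt p' es q') (hne : es ≠ []) : p = p' := by
  cases es with
  | nil => exact absurd rfl hne
  | cons e es => rw [← h1.1, ← h2.1]

/-- the end of a path is determined by the start -/
theorem IsPath.end_eq {σ E : Type} {src tgt : E → σ} {p q q' : σ} {es : List E}
    (h1 : IsPath src tgt p es q) (h2 : IsPath src tgt p es q') : q = q' := by
  induction es generalizing p with
  | nil =>
    have e1 : p = q := h1
    have e2 : p = q' := h2
    rw [← e1, e2]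
  | cons e es ih => exact ih h1.2 h2.2

/-- a loop inside a path starts at a state of the path -/
theorem IsPath.of_loop {σ E : Type} {src tgt : E → σ} {p q s : σ} {x y z : List E}
    (h : IsPath src tgt p (x ++ y ++ z) q) (hy : IsPath src tgt s y s) (hne : y ≠ []) :
    IsPath src tgt p x s ∧ IsPath src tgt s z q := by
  rw [List.append_assoc] at h
  obtain ⟨t, h1, h2⟩ := isPath_append.1 h
  obtain ⟨r, h3, h4⟩ := isPath_append.1 h2
  have e1 : s = t := hy.start_eq h3 hne
  rw [← e1] at h1 h3
  have e2 : s = r := hy.end_eq h3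
  rw [← e2] at h4
  exact ⟨h1, h4⟩

theorem IsPath.loop_pow {σ E : Type} {src tgt : E → σ} {s : σ} {y : List E}
    (h : IsPath src tgt s y s) (k : ℕ) : IsPath src tgt s (List.replicate k y).flatten s := by
  induction k with
  | zero => exact rfl
  | succ k ih =>
    rw [List.replicate_succ, List.flatten_cons]
    exact h.trans ih

end Pool.Agent.Lib.F1c4
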