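import Pool.Agent.Lib.F1c4.Path

/-!
# Module F1c4.RegA: some regular languages (MP_f1c4ef_lc)

PROOFS.
`star_reg`: the automaton with states `Bool`, start `true`, step `s a = s && decide (a ∈ S)`,
accepting `{true}`: `evalFrom s w = s && decide (∀ a ∈ w, a ∈ S)`.
`last_reg`: the automaton with states `Bool`, start `true`, step `s a = decide (a = c)`, accepting
`{true}`; use `DFA.evalFrom_append_singleton` or `List.reverseRecOn` (a word is empty or `w' ++ [a]`).
`cat_reg`: let `M1`, `M2` (states `σ1`, `σ2`) accept `A`, `B`. The automaton with states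
`Option (σ1 ⊕ σ2)`, start `some (inl M1.start)`, step
`some (inl s), a ↦ if a = c then (if s ∈ M1.accept then some (inr M2.start) else none) else some (inl (M1.step s a))`,
`some (inr s), a ↦ some (inr (M2.step s a))`, `none, a ↦ none`, accepting the `some (inr s)` with
`s ∈ M2.accept`, accepts the words `u ++ [c] ++ v` with `u ∈ A`, `c ∉ u`, `v ∈ B`; as `c` is not a
letter of a word in `A` this is the language of the statement. (Every word is without `c`, or
`u ++ [c] ++ v` with `c ∉ u`: `List.eq_append_cons_of_mem` or induction; from `some (inl s)` a word `u`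
without `c` leads to `some (inl (M1.evalFrom s u))`; from `some (inr s)` the word `v` leads to
`some (inr (M2.evalFrom s v))`; from `none` everything leads to `none`. The decomposition
`w = u ++ [c] ++ v` with `c ∉ u` is unique.) `Language.IsRegular` asks for a `Fintype` of states in
`Type`.
-/

set_option autoImplicit false

namespace Pool.Agent.Lib.F1c4

namespace RegAAux

/-- the automaton for the words over `S` -/
def M0 (S : Finset ℕ) : DFA ℕ Bool := ⟨fun s a => s && decide (a ∈ S), true, {true}⟩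

theorem evalFrom_M0 (S : Finset ℕ) (w : List ℕ) (s : Bool) :
    (M0 S).evalFrom s w = true ↔ s = true ∧ ∀ a ∈ w, a ∈ S := by
  induction w generalizing s with
  | nil =>
    rw [DFA.evalFrom_nil]
    exact ⟨fun h => ⟨h, fun a ha => absurd ha List.not_mem_nil⟩, fun h => h.1⟩
  | cons a w ih =>
    rw [DFA.evalFrom_cons, ih]
    show (s && decide (a ∈ S)) = true ∧ (∀ b ∈ w, b ∈ S) ↔ _
    rw [Bool.and_eq_true, decide_eq_true_iff, List.forall_mem_cons, and_assoc]

/-- the automaton for the words which are empty or end with `c` -/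
def M1 (c : ℕ) : DFA ℕ Bool := ⟨fun _ a => decide (a = c), true, {true}⟩

/-- the automaton for the concatenation -/
noncomputable def Mc {σ₁ σ₂ : Type} (c : ℕ) (M₁ : DFA ℕ σ₁) (M₂ : DFA ℕ σ₂) :
    DFA ℕ (Option (σ₁ ⊕ σ₂)) where
  step x a := open Classical in match x with
    | none => none
    | some (Sum.inl s) => if a = c then
        (if s ∈ M₁.accept then some (Sum.inr M₂.start) else none)
        else some (Sum.inl (M₁.step s a))
    | some (Sum.inr s) => some (Sum.inr (M₂.step s a))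
  start := some (Sum.inl M₁.start)
  accept := {x | ∃ s ∈ M₂.accept, x = some (Sum.inr s)}

section

variable {σ₁ σ₂ : Type} (c : ℕ) (M₁ : DFA ℕ σ₁) (M₂ : DFA ℕ σ₂)

theorem evalFrom_none (w : List ℕ) : (Mc c M₁ M₂).evalFrom none w = none := by
  induction w with
  | nil => rfl
  | cons a w ih =>
    rw [DFA.evalFrom_cons]
    exact ih

theorem evalFrom_inr (w : List ℕ) (s : σ₂) :
    (Mc c M₁ M₂).evalFrom (some (Sum.inr s)) w = some (Sum.inr (M₂.evalFrom s w)) := by
  induction w generalizing s with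
  | nil => rfl
  | cons a w ih =>
    rw [DFA.evalFrom_cons, DFA.evalFrom_cons]
    exact ih _

theorem evalFrom_inl (w : List ℕ) (hw : c ∉ w) (s : σ₁) :
    (Mc c M₁ M₂).evalFrom (some (Sum.inl s)) w = some (Sum.inl (M₁.evalFrom s w)) := by
  induction w generalizing s with
  | nil => rfl
  | cons a w ih =>
    have ha : a ≠ c := fun h => hw (h ▸ List.mem_cons_self)
    have hw' : c ∉ w := fun h => hw (List.mem_cons_of_mem _ h)
    rw [DFA.evalFrom_cons, DFA.evalFrom_cons, ← ih hw']
    congr 1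
    show (if a = c then _ else _) = _
    rw [if_neg ha]

theorem evalFrom_cat (u v : List ℕ) (hu : c ∉ u) (s : σ₁) :
    (Mc c M₁ M₂).evalFrom (some (Sum.inl s)) (u ++ [c] ++ v) =
      open Classical in if M₁.evalFrom s u ∈ M₁.accept then
        some (Sum.inr (M₂.evalFrom M₂.start v)) else none := by
  classical
  rw [List.append_assoc, List.singleton_append, DFA.evalFrom_of_append, evalFrom_inl c M₁ M₂ u hu,
    DFA.evalFrom_cons]
  have h1 : (Mc c M₁ M₂).step (some (Sum.inl (M₁.evalFrom s u))) c =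
      if M₁.evalFrom s u ∈ M₁.accept then some (Sum.inr M₂.start) else none := by
    show (if c = c then _ else _) = _
    rw [if_pos rfl]
  rw [h1]
  by_cases h : M₁.evalFrom s u ∈ M₁.accept
  · rw [if_pos h, if_pos h, evalFrom_inr]
  · rw [if_neg h, if_neg h, evalFrom_none]

theorem mem_Mc (u v : List ℕ) (hu : c ∉ u) :
    u ++ [c] ++ v ∈ (Mc c M₁ M₂).accepts ↔ u ∈ M₁.accepts ∧ v ∈ M₂.accepts := by
  classical
  show (∃ s ∈ M₂.accept, (Mc c M₁ M₂).evalFrom (some (Sum.inl M₁.start)) (u ++ [c] ++ v) =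
    some (Sum.inr s)) ↔ M₁.evalFrom M₁.start u ∈ M₁.accept ∧ M₂.evalFrom M₂.start v ∈ M₂.accept
  rw [evalFrom_cat c M₁ M₂ u v hu]
  by_cases h : M₁.evalFrom M₁.start u ∈ M₁.accept
  · rw [if_pos h]
    constructor
    · rintro ⟨s, hs, h1⟩
      rw [Option.some.injEq, Sum.inr.injEq] at h1
      exact ⟨h, by rw [h1]; exact hs⟩
    · rintro ⟨-, h2⟩
      exact ⟨_, h2, rfl⟩
  · rw [if_neg h]
    constructor
    · rintro ⟨s, -, h1⟩
      cases h1
    · rintro ⟨h1, -⟩
      exact absurd h1 h

theorem not_mem_Mc (w : List ℕ) (hw : c ∉ w) : w ∉ (Mc c M₁ M₂).accepts := by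
  show ¬ ∃ s ∈ M₂.accept, (Mc c M₁ M₂).evalFrom (some (Sum.inl M₁.start)) w = some (Sum.inr s)
  rw [evalFrom_inl c M₁ M₂ w hw]
  rintro ⟨s, -, h1⟩
  rw [Option.some.injEq] at h1
  cases h1

end

end RegAAux

open RegAAux

theorem star_reg (S : Finset ℕ) : Language.IsRegular ({w : List ℕ | Ov S w} : Language ℕ) := by
  refine ⟨Bool, inferInstance, M0 S, ?_⟩
  apply Set.ext
  intro w
  show (M0 S).evalFrom true w = true ↔ ∀ a ∈ w, a ∈ S
  rw [evalFrom_M0]
  exact ⟨fun h => h.2, fun h => ⟨rfl, h⟩⟩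

theorem last_reg (c : ℕ) :
    Language.IsRegular ({w : List ℕ | w = [] ∨ ∃ w', w = w' ++ [c]} : Language ℕ) := by
  refine ⟨Bool, inferInstance, M1 c, ?_⟩
  apply Set.ext
  intro w
  show (M1 c).evalFrom true w = true ↔ (w = [] ∨ ∃ w', w = w' ++ [c])
  rcases List.eq_nil_or_concat w with h | ⟨l, a, h⟩
  · subst h
    exact ⟨fun _ => Or.inl rfl, fun _ => rfl⟩
  · rw [List.concat_eq_append] at h
    subst h
    rw [DFA.evalFrom_append_singleton]
    show decide (a = c) = true ↔ _
    rw [decide_eq_true_iff]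
    constructor
    · rintro rfl
      exact Or.inr ⟨l, rfl⟩
    · rintro (h | ⟨w', h⟩)
      · exact absurd h (by simp)
      · have h1 := (List.append_inj' h rfl).2
        rw [List.cons.injEq] at h1
        exact h1.1

theorem cat_reg (c : ℕ) {A B : Language ℕ} (hA : A.IsRegular) (hB : B.IsRegular)
    (hc : ∀ u ∈ A, c ∉ u) :
    Language.IsRegular ({w : List ℕ | ∃ u ∈ A, ∃ v ∈ B, w = u ++ [c] ++ v} : Language ℕ) := by
  obtain ⟨σ₁, _, M₁, rfl⟩ := hA
  obtain ⟨σ₂, _, M₂, rfl⟩ := hB
  refine ⟨Option (σ₁ ⊕ σ₂), inferInstance, Mc c M₁ M₂, ?_⟩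
  apply Set.ext
  intro w
  constructor
  · intro hw
    by_cases h : c ∈ w
    · obtain ⟨u, v, rfl, hu⟩ := List.eq_append_cons_of_mem h
      have e : u ++ c :: v = u ++ [c] ++ v := by rw [List.append_assoc, List.singleton_append]
      rw [e] at hw ⊢
      have h1 := (mem_Mc c M₁ M₂ u v hu).1 hw
      exact ⟨u, h1.1, v, h1.2, rfl⟩
    · exact absurd hw (not_mem_Mc c M₁ M₂ w h)
  · rintro ⟨u, hu, v, hv, rfl⟩
    exact (mem_Mc c M₁ M₂ u v (hc u hu)).2 ⟨hu, hv⟩

end Pool.Agent.Lib.F1c4
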